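import Mathlib

/-!
MODULE Count (about 1 h). Two counting lemmas.

`card_small`: a set with at most `r` elements is the set of the `some` values of a function
`Fin r → Option X` (surjection from `Fin r → Option X` onto `{R : Finset X // R.card ≤ r}`: for given `R`
with `R.card ≤ r` enumerate it), so there are at most `(card X + 1) ^ r` of them
(`Fintype.card_le_of_surjective`).
`sum_le`: for `t ^ 2 ≤ n` one has `n ^ t ≤ (n.choose t) ^ 2`: for `t = 0` clear; `Nat.pow_le_choose`
(`(n + 1 - t) ^ t ≤ t ! * n.choose t`) or the real inequality `(n / t) ^ t ≤ n.choose t`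
(`Nat.pow_le_choose`, or `Nat.choose_le...`; see Mathlib `Nat.pow_le_choose`, `Nat.choose_lower_bound`).
A direct proof: `n.choose t = ∏_{i < t} (n - i) / (t - i)` and `(n - i) / (t - i) ≥ n / t`; so
`t ^ t * n.choose t ≥ n ^ t` (induction or `Nat.descFactorial`), and with `t ^ 2 ≤ n`:
`n ^ t * n ^ t ≤ (t ^ t) ^ 2 * (n.choose t) ^ 2 = (t ^ 2) ^ t * (n.choose t) ^ 2
≤ n ^ t * (n.choose t) ^ 2`; cancel `n ^ t`. Then `n ^ (∑ t i) = ∏ n ^ (t i) ≤ (∏ n.choose (t i)) ^ 2
≤ S ^ 2 < n ^ (2 * r)`, so `∑ t i < 2 * r` (`1 < n`).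
-/

namespace Pool.Agent.Lib.Pe46137M

open Finset

namespace CountAux

theorem pow_le_mul {n t : ℕ} (h : t ≤ n) : n ^ t ≤ t ^ t * n.choose t := by
  have h1 : t.descFactorial t * n ^ t ≤ n.descFactorial t * t ^ t := by
    rw [Nat.descFactorial_eq_prod_range, Nat.descFactorial_eq_prod_range]
    have e1 : n ^ t = ∏ _i ∈ range t, n := by rw [prod_const, card_range]
    have e2 : t ^ t = ∏ _i ∈ range t, t := by rw [prod_const, card_range]
    rw [e1, e2, ← prod_mul_distrib, ← prod_mul_distrib]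
    refine prod_le_prod' fun i hi => ?_
    rw [mem_range] at hi
    obtain ⟨a, rfl⟩ := Nat.exists_eq_add_of_le h
    obtain ⟨b, rfl⟩ := Nat.exists_eq_add_of_le hi.le
    have e3 : i + b - i = b := by omega
    have e4 : i + b + a - i = b + a := by omega
    rw [e3, e4]
    nlinarith [Nat.zero_le (a * i), Nat.zero_le (b * a), Nat.zero_le (a * b)]
  rw [Nat.descFactorial_self, Nat.descFactorial_eq_factorial_mul_choose] at h1
  have h2 : t.factorial * n ^ t ≤ t.factorial * (t ^ t * n.choose t) := by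
    calc _ ≤ t.factorial * n.choose t * t ^ t := h1
      _ = _ := by ring
  exact Nat.le_of_mul_le_mul_left h2 (Nat.factorial_pos t)

theorem pow_le_sq {n t : ℕ} (hn : 0 < n) (h : t ^ 2 ≤ n) : n ^ t ≤ n.choose t ^ 2 := by
  have htn : t ≤ n := by
    rcases Nat.eq_zero_or_pos t with h0 | h0
    · omega
    · nlinarith
  have h1 := pow_le_mul htn
  have h2 : n ^ t * n ^ t ≤ n ^ t * n.choose t ^ 2 := by
    calc n ^ t * n ^ t ≤ (t ^ t * n.choose t) * (t ^ t * n.choose t) := Nat.mul_le_mul h1 h1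
      _ = (t ^ 2) ^ t * n.choose t ^ 2 := by
        have : (t ^ 2) ^ t = t ^ t * t ^ t := by rw [← pow_mul, ← pow_add, two_mul]
        rw [this]; ring
      _ ≤ n ^ t * n.choose t ^ 2 := Nat.mul_le_mul_right _ (Nat.pow_le_pow_left h t)
  exact Nat.le_of_mul_le_mul_left h2 (pow_pos hn t)

end CountAux

theorem card_small (X : Type) [Fintype X] [DecidableEq X] (r : ℕ) :
    Fintype.card {R : Finset X // R.card ≤ r} ≤ (Fintype.card X + 1) ^ r := by
  classical
  have hcard : ∀ g : Fin r → Option X, (univ.filter (fun x => ∃ i, g i = some x)).card ≤ r := by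
    intro g
    have h1 : (univ.filter (fun x => ∃ i, g i = some x)).image some ⊆ univ.image g := by
      intro y hy
      obtain ⟨x, hx, rfl⟩ := mem_image.1 hy
      obtain ⟨i, hi⟩ := (mem_filter.1 hx).2
      exact mem_image.2 ⟨i, mem_univ _, hi⟩
    have h2 := card_le_card h1
    rw [card_image_of_injective _ (Option.some_injective X)] at h2
    have h3 : (univ.image g).card ≤ r := by
      have := card_image_le (s := (univ : Finset (Fin r))) (f := g)
      rwa [card_univ, Fintype.card_fin] at this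
    omega
  have hsurj : Function.Surjective (fun g : Fin r → Option X =>
      (⟨univ.filter (fun x => ∃ i, g i = some x), hcard g⟩ : {R : Finset X // R.card ≤ r})) := by
    rintro ⟨R, hR⟩
    refine ⟨fun i => if h : (i : ℕ) < R.card then some (R.equivFin.symm ⟨i, h⟩ : X) else none, ?_⟩
    apply Subtype.ext
    ext x
    rw [mem_filter]
    constructor
    · rintro ⟨-, i, hi⟩
      beta_reduce at hi
      by_cases h : (i : ℕ) < R.card
      · rw [dif_pos h] at hi
        rw [← Option.some_injective X hi]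
        exact (R.equivFin.symm ⟨i, h⟩).2
      · rw [dif_neg h] at hi
        exact absurd hi (by simp)
    · intro hx
      refine ⟨mem_univ _, ⟨(R.equivFin ⟨x, hx⟩ : ℕ), lt_of_lt_of_le (R.equivFin ⟨x, hx⟩).2 hR⟩, ?_⟩
      beta_reduce
      rw [dif_pos (R.equivFin ⟨x, hx⟩).2]
      simp
  have h := Fintype.card_le_of_surjective _ hsurj
  rw [Fintype.card_fun, Fintype.card_option, Fintype.card_fin] at h
  exact h

theorem sum_le {n m S r : ℕ} (hn : 1 < n) (t : Fin m → ℕ) (ht : ∀ i, t i ^ 2 ≤ n)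
    (h : ∏ i, n.choose (t i) ≤ S) (hS : S < n ^ r) : ∑ i, t i < 2 * r := by
  have h1 : n ^ (∑ i, t i) ≤ S ^ 2 := by
    rw [← prod_pow_eq_pow_sum]
    calc ∏ i, n ^ t i ≤ ∏ i, n.choose (t i) ^ 2 :=
          prod_le_prod' fun i _ => CountAux.pow_le_sq (by omega) (ht i)
      _ = (∏ i, n.choose (t i)) ^ 2 := prod_pow _ _ _
      _ ≤ S ^ 2 := Nat.pow_le_pow_left h 2
  have h2 : S ^ 2 < n ^ (2 * r) := by
    rw [mul_comm, pow_mul]
    exact Nat.pow_lt_pow_left hS (by norm_num)
  exact (Nat.pow_lt_pow_iff_right hn).1 (lt_of_le_of_lt h1 h2)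

end Pool.Agent.Lib.Pe46137M
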