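import Pool.Agent.Lib.Pe46137M.Defs

/-!
MODULE Ext (about 1.5 h). Role functions with prescribed multiplicities.

`good_count`: for `r = some e` both counts are `M` (if `e ∈ H i`) or `0`; for `r = none` the count is
`n` minus the sum of the counts of all `some e` (`Finset.card_eq_sum_card_fiberwise` or
`Finset.sum_card_...` with the map `ρ i`).
`good_big`: if `ρ i b = some e` then `e ∈ H i` and the count is `M`; if `ρ i b = none` the count is
`n` minus at most `M * card (Z × Z)`, so at least `M`.
`exists_good`: treat every `i` separately. Let `B i = {b | ∃ z ∈ R, z.1 = (i, b)}` (at most `M` vertices)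
and `f b` the role given by `R` for `b ∈ B i` (`hfun`). For `e ∈ H i` let `c e` be the number of
`b ∈ B i` with `f b = some e`; `c e ≤ M`. The type `Σ e : {e // e ∈ H i}, Fin (M - c e)` has at most
`M * card (Z × Z)` elements, and there are at least `n - M ≥ M * card (Z × Z)` vertices outside
`B i`, so there is an injection `g` of the former into the latter
(`Function.Embedding.nonempty_of_card_le`). Put `ρ i b = f b` for `b ∈ B i`, `ρ i (g ⟨e, j⟩) = some e`,
and `ρ i b = none` otherwise. The number of `b` with `ρ i b = some e` is `c e + (M - c e) = M` for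
`e ∈ H i`; for `e ∉ H i` it is `0` (`hleg`).
-/

namespace Pool.Agent.Lib.Pe46137M

open Finset Pool.Agent.Lib.Pe46137 Pool.Agent.Lib.Pe46137L

variable {n m M : ℕ} {Z : Type} [Fintype Z] [DecidableEq Z]

namespace ExtAux

theorem sum_none (f : Fin n → Option (Z × Z)) :
    (univ.filter (fun b => f b = none)).card +
      ∑ e : Z × Z, (univ.filter (fun b => f b = some e)).card = n := by
  have h1 := Finset.card_eq_sum_card_fiberwise (s := (univ : Finset (Fin n)))
    (t := (univ : Finset (Option (Z × Z)))) (f := f) (fun x _ => Finset.mem_coe.2 (mem_univ _))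
  rw [Finset.card_univ, Fintype.card_fin, Fintype.sum_option] at h1
  exact h1.symm

theorem single {T : Type} [Fintype T] [DecidableEq T] (hn : M * (Fintype.card T + 1) ≤ n)
    (H : Set T) (B : Finset (Fin n)) (hB : B.card ≤ M) (f : Fin n → Option T)
    (hleg : ∀ b ∈ B, ∀ e, f b = some e → e ∈ H) :
    ∃ ρ : Fin n → Option T, (∀ e, (e ∈ H → (univ.filter (fun b => ρ b = some e)).card = M) ∧
      (e ∉ H → ∀ b, ρ b ≠ some e)) ∧ ∀ b ∈ B, ρ b = f b := by
  classical
  let c : T → ℕ := fun e => (B.filter (fun b => f b = some e)).card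
  have hc : ∀ e, c e ≤ M := fun e => (Finset.card_le_card (Finset.filter_subset _ _)).trans hB
  have hcard : Fintype.card (Σ e : {e // e ∈ H}, Fin (M - c e)) ≤
      Fintype.card {b : Fin n // b ∉ B} := by
    rw [Fintype.card_sigma, Fintype.card_subtype_compl, Fintype.card_fin,
      Fintype.card_coe]
    have h1 : ∑ e : {e // e ∈ H}, Fintype.card (Fin (M - c e)) ≤
        ∑ _e : {e // e ∈ H}, M := Finset.sum_le_sum fun e _ => by
      rw [Fintype.card_fin]
      exact Nat.sub_le _ _
    rw [Finset.sum_const, Finset.card_univ, smul_eq_mul] at h1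
    have h2 : Fintype.card {e // e ∈ H} ≤ Fintype.card T := Fintype.card_subtype_le _
    have h3 : Fintype.card {e // e ∈ H} * M ≤ Fintype.card T * M := Nat.mul_le_mul_right M h2
    have h4 : M * (Fintype.card T + 1) = Fintype.card T * M + M := by ring
    omega
  obtain ⟨g⟩ := Function.Embedding.nonempty_of_card_le hcard
  let ρ : Fin n → Option T := fun b =>
    if b ∈ B then f b else
      if h : ∃ t : (Σ e : {e // e ∈ H}, Fin (M - c e)), (g t : Fin n) = b then
        some (Classical.choose h).1.1 else none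
  have hρB : ∀ b ∈ B, ρ b = f b := fun b hb => if_pos hb
  have hρg : ∀ t, ρ (g t : Fin n) = some t.1.1 := by
    intro t
    have h1 : ((g t : Fin n)) ∉ B := (g t).2
    have h2 : ∃ t' : (Σ e : {e // e ∈ H}, Fin (M - c e)), (g t' : Fin n) = (g t : Fin n) :=
      ⟨t, rfl⟩
    have h3 : Classical.choose h2 = t :=
      g.injective (Subtype.ext (Classical.choose_spec h2))
    simp only [ρ]
    rw [if_neg h1, dif_pos h2, h3]
  have hρn : ∀ b, b ∉ B → ∀ e, ρ b = some e → ∃ t, (g t : Fin n) = b ∧ t.1.1 = e := by
    intro b hb e he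
    simp only [ρ] at he
    rw [if_neg hb] at he
    split_ifs at he with h2
    exact ⟨Classical.choose h2, Classical.choose_spec h2, Option.some.inj he⟩
  refine ⟨ρ, fun e => ⟨fun he => ?_, fun he b hb => ?_⟩, hρB⟩
  · have hset : univ.filter (fun b => ρ b = some e) = (B.filter (fun b => f b = some e)) ∪
        (univ.image (fun j : Fin (M - c e) =>
          (g (⟨⟨e, he⟩, j⟩ : Σ e : {e // e ∈ H}, Fin (M - c e)) : Fin n))) := by
      ext b
      simp only [mem_filter, mem_univ, true_and, mem_union, mem_image]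
      constructor
      · intro hb
        by_cases hbB : b ∈ B
        · left
          rw [hρB b hbB] at hb
          exact ⟨hbB, hb⟩
        · right
          obtain ⟨t, ht, hte⟩ := hρn b hbB e hb
          obtain ⟨⟨e', he'⟩, j⟩ := t
          simp only at hte
          subst hte
          exact ⟨j, ht⟩
      · rintro (⟨hbB, hb⟩ | ⟨j, rfl⟩)
        · rw [hρB b hbB]
          exact hb
        · exact hρg _
    have hdisj : Disjoint (B.filter (fun b => f b = some e))
        (univ.image (fun j : Fin (M - c e) =>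
          (g (⟨⟨e, he⟩, j⟩ : Σ e : {e // e ∈ H}, Fin (M - c e)) : Fin n))) := by
      rw [Finset.disjoint_left]
      intro b hb hb'
      obtain ⟨j, -, rfl⟩ := mem_image.1 hb'
      exact (g (⟨⟨e, he⟩, j⟩ : Σ e : {e // e ∈ H}, Fin (M - c e))).2 (mem_filter.1 hb).1
    rw [hset, Finset.card_union_of_disjoint hdisj, Finset.card_image_of_injective, Finset.card_univ,
      Fintype.card_fin]
    · have := hc e
      change c e + (M - c e) = M
      omega
    · intro j j' hj
      have h1 := g.injective (Subtype.ext hj)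
      simpa using h1
  · by_cases hbB : b ∈ B
    · rw [hρB b hbB] at hb
      exact he (hleg b hbB e hb)
    · obtain ⟨t, -, hte⟩ := hρn b hbB e hb
      exact he (hte ▸ t.1.2)

end ExtAux

theorem good_count {H : Fin m → Set (Z × Z)} {ρ ρ' : Fin m → Fin n → Option (Z × Z)}
    (h : Good M H ρ) (h' : Good M H ρ') (i : Fin m) (r : Option (Z × Z)) :
    (univ.filter (fun b => ρ i b = r)).card = (univ.filter (fun b => ρ' i b = r)).card := by
  have hsome : ∀ e : Z × Z, (univ.filter (fun b => ρ i b = some e)).card =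
      (univ.filter (fun b => ρ' i b = some e)).card := by
    intro e
    by_cases he : e ∈ H i
    · rw [(h i e).1 he, (h' i e).1 he]
    · rw [Finset.filter_false_of_mem fun b _ => (h i e).2 he b,
        Finset.filter_false_of_mem fun b _ => (h' i e).2 he b]
  cases r with
  | some e => exact hsome e
  | none =>
    have h1 := ExtAux.sum_none (ρ i)
    have h2 := ExtAux.sum_none (ρ' i)
    rw [Finset.sum_congr rfl fun e _ => hsome e] at h1
    omega

theorem good_big (hn : M * (Fintype.card (Z × Z) + 1) ≤ n) {H : Fin m → Set (Z × Z)}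
    {ρ : Fin m → Fin n → Option (Z × Z)} (h : Good M H ρ) (i : Fin m) (b : Fin n) :
    M ≤ (univ.filter (fun b' => ρ i b' = ρ i b)).card := by
  have hle : ∀ e : Z × Z, (univ.filter (fun b' => ρ i b' = some e)).card ≤ M := by
    intro e
    by_cases he : e ∈ H i
    · exact ((h i e).1 he).le
    · rw [Finset.filter_false_of_mem fun b _ => (h i e).2 he b]
      exact Nat.zero_le _
  cases hb : ρ i b with
  | some e =>
    by_cases he : e ∈ H i
    · exact ((h i e).1 he).ge
    · exact absurd hb ((h i e).2 he b)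
  | none =>
    have h1 := ExtAux.sum_none (ρ i)
    have h2 : ∑ e : Z × Z, (univ.filter (fun b' => ρ i b' = some e)).card ≤
        ∑ _e : Z × Z, M := Finset.sum_le_sum fun e _ => hle e
    rw [Finset.sum_const, Finset.card_univ, smul_eq_mul] at h2
    have h3 : M * (Fintype.card (Z × Z) + 1) = Fintype.card (Z × Z) * M + M := by ring
    omega

theorem exists_good (hn : M * (Fintype.card (Z × Z) + 1) ≤ n) (H : Fin m → Set (Z × Z))
    (R : Finset ((Fin m × Fin n) × Option (Z × Z))) (hR : R.card ≤ M)
    (hfun : ∀ z ∈ R, ∀ z' ∈ R, z.1 = z'.1 → z = z')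
    (hleg : ∀ z ∈ R, ∀ e, z.2 = some e → e ∈ H z.1.1) :
    ∃ ρ : Fin m → Fin n → Option (Z × Z), Good M H ρ ∧ ∀ z ∈ R, ρ z.1.1 z.1.2 = z.2 := by
  classical
  let B : Fin m → Finset (Fin n) := fun i =>
    (R.filter (fun z => z.1.1 = i)).image (fun z => z.1.2)
  let f : Fin m → Fin n → Option (Z × Z) := fun i b =>
    if h : ∃ z ∈ R, z.1 = (i, b) then (Classical.choose h).2 else none
  have hf : ∀ z ∈ R, f z.1.1 z.1.2 = z.2 := by
    intro z hz
    have h : ∃ z' ∈ R, z'.1 = (z.1.1, z.1.2) := ⟨z, hz, rfl⟩
    obtain ⟨h1, h2⟩ := Classical.choose_spec h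
    have h3 : Classical.choose h = z := hfun _ h1 _ hz h2
    simp only [f]
    rw [dif_pos h, h3]
  have hB : ∀ i, (B i).card ≤ M := fun i =>
    (Finset.card_image_le.trans (Finset.card_le_card (Finset.filter_subset _ _))).trans hR
  have hlegB : ∀ i, ∀ b ∈ B i, ∀ e, f i b = some e → e ∈ H i := by
    intro i b hb e he
    obtain ⟨z, hz, rfl⟩ := mem_image.1 hb
    obtain ⟨hzR, rfl⟩ := mem_filter.1 hz
    rw [hf z hzR] at he
    exact hleg z hzR e he
  choose ρ hρ using fun i => ExtAux.single hn (H i) (B i) (hB i) (f i) (hlegB i)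
  refine ⟨ρ, fun i e => (hρ i).1 e, fun z hz => ?_⟩
  rw [(hρ z.1.1).2 z.1.2 (mem_image.2 ⟨z, mem_filter.2 ⟨hz, rfl⟩, rfl⟩)]
  exact hf z hz

end Pool.Agent.Lib.Pe46137M
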