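import Pool.Agent.Lib.Pe46137M.Defs

/-!
MODULE Known (about 1.5 h). The value of a state depends only on the roles of its support. Same idea
as `known_congr` in Lib/Pe46137L/Cut.lean (PROVED; read that proof first).

`ren_GR`: `Sym.ren π G = {e | (π e.1, π e.2) ∈ G}`. `spr μ σ` preserves layers; it fixes the vertices of
the layers that are not of the form `μ i` (`spr_out`) and is `(μ i, b) ↦ (μ i, σ i b)` on the layer
`μ i` (`spr_in`, `Spaced.injective`). If `e.2.1 = μ i` and `e.2.1 = e.1.1 + 1` then the layer of `e.1`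
is not a `μ j` (`Spaced.succ_ne`), same for `e.1.1 = μ i` and `e.2`.

`known_congr`: induction on the number of pairs `(i, b)` with `ρ i b ≠ ρ' i b` (for all `ρ` at once).
If there is none, `ρ = ρ'`. Otherwise let `ρ i b = α ≠ β = ρ' i b`; `b ∉ T i` by `hag`. By `hcard`
for `r = β` the sets `{ρ i = β}` and `{ρ' i = β}` have the same size, and `b` is in the second but
not in the first, so there is `c` with `ρ i c = β ≠ ρ' i c`; `c ∉ T i`, `c ≠ b`. By `hbig` there are
at least `card (T i) + 2` vertices with the role `α`, so there is `e ∉ T i`, `e ≠ b`, `ρ i e = α`;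
`e ≠ c`. Let `τ = Sym.cyc b c e` (`b ↦ c`, `c ↦ e`, `e ↦ b`: `Sym.cyc_a`, `Sym.cyc_b`, `Sym.cyc_c`,
`Sym.cyc_other`) and `ρ'' j = ρ j ∘ (Pi.mulSingle i τ) j`. Then `ρ'' i b = β`, `ρ'' i c = α`,
`ρ'' i e = α = ρ i e`, all other values are those of `ρ`. So `ρ''` and `ρ'` differ at fewer pairs
(at `b` no more, at `c` they may or may not, `ρ` and `ρ'` did); the hypotheses hold for `ρ''`
(`hcard`, `hbig`: composition with a permutation does not change the counts; `hag`: `b, c, e ∉ T i`).
`Known N (GR μ ν ρ) w ↔ Known N (GR μ ν ρ'') w` by `Sym.Network.Lifts.known` applied to the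
automorphism of `hT i b c e` (which fixes `w`) and `ren_GR`.
-/

namespace Pool.Agent.Lib.Pe46137M

open Finset Pool.Agent.Lib.Pe46137 Pool.Agent.Lib.Pe46137L

variable {k n m : ℕ} {Z : Type} {μ : Fin m → ℕ} {ν : ℕ → Z → Fin n}

theorem ren_GR (hμ : Spaced k μ) (σ : Fin m → Equiv.Perm (Fin n))
    (ρ : Fin m → Fin n → Option (Z × Z)) :
    Sym.ren (spr μ σ) (GR (k := k) μ ν ρ) = GR μ ν (fun i b => ρ i (σ i b)) := by
  ext e
  change ((e.2.1 : ℕ) = e.1.1 + 1 ∧
    ((∀ i, (e.1.1 : ℕ) ≠ μ i) → (∀ i, (e.2.1 : ℕ) ≠ μ i) →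
      (spr μ σ e.1).2 = (spr μ σ e.2).2) ∧
    (∀ i, (e.2.1 : ℕ) = μ i → ∃ u v, ρ i (spr μ σ e.2).2 = some (u, v) ∧
      (spr μ σ e.1).2 = ν i u) ∧
    ∀ i, (e.1.1 : ℕ) = μ i → ∃ u v, ρ i (spr μ σ e.1).2 = some (u, v) ∧
      (spr μ σ e.2).2 = ν (i + 1) v) ↔ ((e.2.1 : ℕ) = e.1.1 + 1 ∧
    ((∀ i, (e.1.1 : ℕ) ≠ μ i) → (∀ i, (e.2.1 : ℕ) ≠ μ i) → e.1.2 = e.2.2) ∧
    (∀ i, (e.2.1 : ℕ) = μ i → ∃ u v, ρ i (σ i e.2.2) = some (u, v) ∧ e.1.2 = ν i u) ∧
    ∀ i, (e.1.1 : ℕ) = μ i → ∃ u v, ρ i (σ i e.1.2) = some (u, v) ∧ e.2.2 = ν (i + 1) v)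
  refine and_congr_right fun hA => and_congr ?_ (and_congr ?_ ?_)
  · refine forall_congr' fun h1 => forall_congr' fun h2 => ?_
    rw [spr_out σ e.1 h1, spr_out σ e.2 h2]
  · refine forall_congr' fun i => forall_congr' fun hi => ?_
    rw [spr_in hμ.injective σ e.2 i hi, spr_out σ e.1 (fun j hj => hμ.succ_ne j i (by omega))]
  · refine forall_congr' fun i => forall_congr' fun hi => ?_
    rw [spr_in hμ.injective σ e.1 i hi, spr_out σ e.2 (fun j hj => hμ.succ_ne i j (by omega))]

theorem known_congr [DecidableEq Z] (hμ : Spaced k μ) {W : Type*} {N : Sym.Network (Vtx k n) W}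
    {w : W} {T : Fin m → Finset (Fin n)}
    (hT : ∀ i, ∀ b c e, b ∉ T i → c ∉ T i → e ∉ T i → b ≠ c → c ≠ e → b ≠ e →
      ∃ ρ, N.Lifts (spr μ (Pi.mulSingle i (Sym.cyc b c e))) ρ ∧ ρ w = w)
    {ρ ρ' : Fin m → Fin n → Option (Z × Z)}
    (hcard : ∀ i r, (univ.filter (fun b => ρ i b = r)).card =
      (univ.filter (fun b => ρ' i b = r)).card)
    (hbig : ∀ i b, (T i).card + 2 ≤ (univ.filter (fun b' => ρ i b' = ρ i b)).card)
    (hag : ∀ i, ∀ b ∈ T i, ρ i b = ρ' i b) :
    Sym.Known N (GR (k := k) μ ν ρ) w ↔ Sym.Known N (GR (k := k) μ ν ρ') w := by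
  suffices H : ∀ (d : ℕ) (ρ : Fin m → Fin n → Option (Z × Z)),
      (∀ i r, (univ.filter (fun b => ρ i b = r)).card =
        (univ.filter (fun b => ρ' i b = r)).card) →
      (∀ i b, (T i).card + 2 ≤ (univ.filter (fun b' => ρ i b' = ρ i b)).card) →
      (∀ i, ∀ b ∈ T i, ρ i b = ρ' i b) →
      (univ.filter (fun q : Fin m × Fin n => ρ q.1 q.2 ≠ ρ' q.1 q.2)).card ≤ d →
      (Sym.Known N (GR (k := k) μ ν ρ) w ↔ Sym.Known N (GR (k := k) μ ν ρ') w) from
    H _ ρ hcard hbig hag le_rfl
  clear hcard hbig hag ρ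
  intro d
  induction d with
  | zero =>
    intro ρ _ _ _ hd
    have h1 : ρ = ρ' := by
      funext i b
      by_contra hne
      have h2 : (i, b) ∈ univ.filter (fun q : Fin m × Fin n => ρ q.1 q.2 ≠ ρ' q.1 q.2) := by
        simpa using hne
      have h3 := card_pos.mpr ⟨_, h2⟩
      omega
    rw [h1]
  | succ d ih =>
    intro ρ hcard hbig hag hd
    by_cases hD : ∀ i b, ρ i b = ρ' i b
    · have h1 : ρ = ρ' := by
        funext i b
        exact hD i b
      rw [h1]
    · push Not at hD
      obtain ⟨i, b, hb⟩ := hD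
      have hbT : b ∉ T i := fun h => hb (hag i b h)
      obtain ⟨c, hc, hc'⟩ : ∃ c, ρ i c = ρ' i b ∧ ρ' i c ≠ ρ' i b := by
        by_contra hcon
        push Not at hcon
        have h1 : univ.filter (fun x => ρ i x = ρ' i b) ⊂ univ.filter (fun x => ρ' i x = ρ' i b) := by
          rw [ssubset_iff_of_subset]
          · refine ⟨b, ?_, ?_⟩
            · simp
            · simpa using hb
          · intro x hx
            simp only [mem_filter, mem_univ, true_and] at hx ⊢
            exact hcon x hx
        have h2 := card_lt_card h1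
        have h3 := hcard i (ρ' i b)
        omega
      have hcT : c ∉ T i := fun h => by
        have := hag i c h
        rw [hc] at this
        exact hc' this.symm
      have hbc : b ≠ c := by
        intro h0
        rw [← h0] at hc
        exact hb hc
      obtain ⟨e, he⟩ : (univ.filter (fun x => ρ i x = ρ i b) \ insert b (T i)).Nonempty := by
        rw [← card_pos]
        have h1 := le_card_sdiff (insert b (T i)) (univ.filter (fun x => ρ i x = ρ i b))
        have h2 := card_insert_le b (T i)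
        have h3 := hbig i b
        omega
      rw [mem_sdiff, mem_filter, mem_insert, not_or] at he
      obtain ⟨⟨-, heb'⟩, heb, heT⟩ := he
      have hec : c ≠ e := by
        intro h0
        rw [h0, heb'] at hc
        exact hb hc
      obtain ⟨lf, hlf, hlw⟩ := hT i b c e hbT hcT heT hbc hec (Ne.symm heb)
      obtain ⟨σ, hσ⟩ : ∃ σ : Fin m → Equiv.Perm (Fin n),
        Pi.mulSingle i (Sym.cyc b c e) = σ := ⟨_, rfl⟩
      have hσi : σ i = Sym.cyc b c e := by rw [← hσ, Pi.mulSingle_eq_same]
      have hσn : ∀ i', i' ≠ i → σ i' = 1 := fun i' h0 => by rw [← hσ, Pi.mulSingle_eq_of_ne h0]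
      rw [hσ] at hlf
      have hk1 : Sym.Known N (GR (k := k) μ ν ρ) w ↔
          Sym.Known N (GR (k := k) μ ν (fun i b => ρ i (σ i b))) w := by
        have := hlf.known (GR (k := k) μ ν ρ) w
        rw [hlw, ren_GR hμ] at this
        exact this
      rw [hk1]
      have hb1 : ρ i (σ i b) = ρ' i b := by
        rw [hσi, Sym.cyc_a hbc (Ne.symm heb)]
        exact hc
      have hc1 : ρ i c ≠ ρ' i c := by
        rw [hc]
        exact hc'.symm
      have he1 : ρ i (σ i e) = ρ i e := by
        rw [hσi, Sym.cyc_c]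
        exact heb'.symm
      have ho : ∀ x, x ≠ b → x ≠ c → x ≠ e → σ i x = x := fun x h1 h2 h3 => by
        rw [hσi]
        exact Sym.cyc_other h1 h2 h3
      have hcnt : ∀ i' r, (univ.filter (fun x => ρ i' (σ i' x) = r)).card =
          (univ.filter (fun x => ρ i' x = r)).card := by
        intro i' r
        refine card_bijective (σ i') (Equiv.bijective _) ?_
        intro x
        simp
      refine ih _ ?_ ?_ ?_ ?_
      · intro i' r
        rw [← hcard i' r]
        exact hcnt i' r
      · intro i' x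
        have h1 := hbig i' (σ i' x)
        rw [← hcnt i' (ρ i' (σ i' x))] at h1
        exact h1
      · intro i' x hx
        by_cases h0 : i' = i
        · subst h0
          have h1 : σ i' x = x := ho x (fun h => hbT (h ▸ hx)) (fun h => hcT (h ▸ hx))
            (fun h => heT (h ▸ hx))
          simp only [h1]
          exact hag _ x hx
        · have h1 : σ i' x = x := by rw [hσn _ h0]; rfl
          simp only [h1]
          exact hag i' x hx
      · have hlt : (univ.filter (fun q : Fin m × Fin n =>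
            ρ q.1 (σ q.1 q.2) ≠ ρ' q.1 q.2)).card <
            (univ.filter (fun q : Fin m × Fin n => ρ q.1 q.2 ≠ ρ' q.1 q.2)).card := by
          refine card_lt_card ?_
          rw [ssubset_iff_of_subset]
          · refine ⟨(i, b), ?_, ?_⟩
            · simpa using hb
            · simpa using hb1
          · rintro ⟨i', x⟩ hx
            simp only [mem_filter, mem_univ, true_and] at hx ⊢
            by_cases h0 : i' = i
            · subst h0
              by_cases h1 : x = b
              · rw [h1]; exact hb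
              by_cases h2 : x = c
              · rw [h2]; exact hc1
              by_cases h3 : x = e
              · rw [h3] at hx ⊢
                rw [he1] at hx
                exact hx
              · rw [ho x h1 h2 h3] at hx
                exact hx
            · have h1 : σ i' x = x := by rw [hσn _ h0]; rfl
              rw [h1] at hx
              exact hx
        exact Nat.lt_succ_iff.mp (lt_of_lt_of_le hlt hd)

end Pool.Agent.Lib.Pe46137M
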