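import Mathlib

/-!
MODULE NumM (about 1.5 h). The numbers of the lower bound.

`exists_prime`: let `b = Nat.log 2 n`, so `2 ^ b ≤ n < 2 ^ (b + 1)`, `b ≥ 40 * d ≥ 5120`
(`Nat.le_log_of_pow_le`…), `t = b / 3`, and `q` a prime with `2 ^ (t - 1) < q ≤ 2 ^ t`
(`Nat.exists_prime_lt_and_le_two_mul`). `r = d / 128 ≥ 1`, `128 * r ≤ d`. `2 ^ d ≤ 2 ^ (t - 1) < q` since
`d + 1 ≤ t`. `q ^ 2 + 1 ≤ 2 ^ (2 t + 1)`, `4 r ≤ d ≤ 2 ^ d`, `d + 2 t + 1 ≤ b`: third claim.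
Fourth: `20 r ^ 2 (b + 1) ≤ 2 ^ b` (e.g. `r ≤ b`, `20 b ^ 2 (b + 1) ≤ 2 ^ b` for `b ≥ 5120`; or
`x < 2 ^ x` several times: `20 ≤ 2 ^ 5`, `r ^ 2 ≤ 2 ^ (2 r)`, `b + 1 ≤ 2 ^ (b / 2)`…). Last:
`((2 ^ d + 1) * n) * (q ^ 2 + 1) + 1 ≤ 2 ^ (d + 1) * 2 ^ (b + 1) * 2 ^ (2 t + 1) * 2 ≤ 2 ^ (2 b)` since
`d + 4 + 2 t ≤ b`, so the left side is at most `2 ^ (2 * ((b + 1) * r + 8 * b * r) + (d + 4) * d)`
(`9 * 2 ^ d + 1 ≤ 2 ^ (d + 4)`), and `q ^ (d - 1) ≥ (2 ^ (t - 1)) ^ (d - 1)`. So it is enough that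
`2 * ((b + 1) * r + 8 * b * r) + (d + 4) * d < (t - 1) * (d - 1)`. Now
`(18 b + 2) r ≤ 19 b r ≤ 19 b d / 128 < 0.15 b d`, `(d + 4) d ≤ (b / 40 + 4) d ≤ 0.026 b d`,
`(t - 1) (d - 1) ≥ (b / 3 - 2) (d - 1) ≥ 0.33 b d` (in `ℕ`: multiply everything by `3 * 128`,
`nlinarith`).

`final_form`: write `a = Real.logb 2 L`, `e = Real.logb 2 n`. If `L = 0` the exponent is `≤ 0`
(`Real.logb 2 0 = 0`, `e ≥ 0`), so the left side is at most `1`. Let `L ≥ 1`,
`d = min (Nat.log 2 L - 2) (Nat.log 2 n / 40)`. Case `128 ≤ d`: `h2 d` applies, `d / 128 ≥ d / 256` as a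
real number, and `d ≥ min (a - 3) (e / 40 - 1) ≥ min a e / 41`, so `(d / 128 : ℕ) ≥ min a e / 30000`
and `n ^ (min a e / 30000) ≤ n ^ (d / 128 : ℕ) ≤ S` (`Real.rpow_le_rpow_of_exponent_le`,
`Real.rpow_natCast`). Case `d < 128`: `min a e < 5122`, so the exponent is at most `1`. If
`20 * (Nat.log 2 n + 1) ≤ n` then the left side is at most `n ≤ S` (`h1`). Otherwise `n < 160`,
`e ≤ 8`, the exponent is at most `8 / 30000` and `160 ^ (8 / 30000) ≤ 2` (`160 ≤ 2 ^ 8`, so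
`160 ^ (8 / 30000) ≤ 2 ^ (64 / 30000) ≤ 2`).
-/

namespace Pool.Agent.Lib.Pe46137M

namespace NumMAux

theorem two_pow_log {n : ℕ} (hn : 1 ≤ n) : 2 ^ Nat.log 2 n ≤ n :=
  Nat.pow_log_le_self 2 (by omega)

theorem lt_two_pow_log (n : ℕ) : n < 2 ^ (Nat.log 2 n + 1) :=
  Nat.lt_pow_succ_log_self (by norm_num) n

theorem small {n : ℕ} (hn : 160 ≤ n) : 20 * (Nat.log 2 n + 1) ≤ n := by
  have h1 := two_pow_log (n := n) (by omega)
  have h2 : 7 ≤ Nat.log 2 n := Nat.le_log_of_pow_le (by norm_num) (by omega)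
  have h3 : ∀ b : ℕ, 20 * (b + 8 + 1) ≤ 2 ^ (b + 8) := by
    intro b
    induction b with
    | zero => norm_num
    | succ b ih =>
      have : 2 ^ (b + 1 + 8) = 2 * 2 ^ (b + 8) := by ring
      omega
  rcases Nat.lt_or_ge (Nat.log 2 n) 8 with h4 | h4
  · have h5 : Nat.log 2 n = 7 := by omega
    rw [h5]
    omega
  · have h5 := h3 (Nat.log 2 n - 8)
    rw [Nat.sub_add_cancel h4] at h5
    omega

theorem expo {b d r t : ℕ} (hd : 128 ≤ d) (hb : 40 * d ≤ b) (hr : 128 * r ≤ d) (ht : b ≤ 3 * t + 2) :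
    2 * ((b + 1) * r + 8 * b * r) + (d + 4) * d < (t - 1) * (d - 1) := by
  obtain ⟨u, rfl⟩ : ∃ u, d = u + 1 := ⟨d - 1, by omega⟩
  obtain ⟨s, rfl⟩ : ∃ s, t = s + 1 := ⟨t - 1, by omega⟩
  simp only [Nat.add_sub_cancel]
  have e1 : 384 * (2 * ((b + 1) * r + 8 * b * r)) ≤ (54 * b + 6) * (u + 1) := by
    have : 384 * (2 * ((b + 1) * r + 8 * b * r)) = (54 * b + 6) * (128 * r) := by ring
    rw [this]
    exact Nat.mul_le_mul_left _ hr
  have e2 : 127 * (u + 1) ≤ 128 * u := by omega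
  have e3 : b ≤ 3 * s + 5 := by omega
  have e4 : b * (127 * (u + 1)) ≤ (3 * s + 5) * (127 * (u + 1)) := Nat.mul_le_mul_right _ e3
  have e5 : 3 * s * (127 * (u + 1)) ≤ 3 * s * (128 * u) := Nat.mul_le_mul_left _ e2
  have e6 : (384 * (u + 1) + 2177) * (u + 1) < 73 * b * (u + 1) := by
    refine Nat.mul_lt_mul_of_pos_right ?_ (by omega)
    omega
  nlinarith

end NumMAux

open NumMAux

theorem exists_prime {n d : ℕ} (hd : 128 ≤ d) (hn : 2 ^ (40 * d) ≤ n) :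
    ∃ q : ℕ, q.Prime ∧ 2 ^ d ≤ q ∧ 4 * (d / 128) * (q ^ 2 + 1) ≤ n ∧
      20 * (d / 128) ^ 2 * (Nat.log 2 n + 1) ≤ n ∧
      (n ^ (d / 128) * (((2 ^ d + 1) * n) * (q ^ 2 + 1) + 1) ^ (4 * (d / 128))) ^ 2 *
        (9 * 2 ^ d + 1) ^ d < q ^ (d - 1) := by
  set b := Nat.log 2 n with hb
  have hn1 : 1 ≤ n := le_trans (Nat.one_le_two_pow) hn
  have hb1 : 2 ^ b ≤ n := two_pow_log hn1
  have hb2 : n < 2 ^ (b + 1) := lt_two_pow_log n
  have hb3 : 40 * d ≤ b := Nat.le_log_of_pow_le (by norm_num) hn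
  set t := b / 3 with ht
  have ht1 : b ≤ 3 * t + 2 := by omega
  have ht2 : 3 * t ≤ b := by omega
  set r := d / 128 with hr
  have hr1 : 128 * r ≤ d := by omega
  obtain ⟨q, hq, hq1, hq2⟩ := Nat.exists_prime_lt_and_le_two_mul (2 ^ (t - 1)) (by positivity)
  have hq3 : q ≤ 2 ^ t := by
    refine hq2.trans (le_of_eq ?_)
    have : t = (t - 1) + 1 := by omega
    conv_rhs => rw [this]
    ring
  have hqq : q ^ 2 + 1 ≤ 2 ^ (2 * t + 1) := by
    have h1 : q ^ 2 ≤ (2 ^ t) ^ 2 := Nat.pow_le_pow_left hq3 2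
    have h2 : (2 ^ t) ^ 2 = 2 ^ (2 * t) := by rw [← pow_mul, mul_comm]
    have h3 : 1 ≤ 2 ^ (2 * t) := Nat.one_le_two_pow
    have h4 : 2 ^ (2 * t + 1) = 2 * 2 ^ (2 * t) := by ring
    omega
  have hd2 : d < 2 ^ d := Nat.lt_two_pow_self
  refine ⟨q, hq, ?_, ?_, ?_, ?_⟩
  · refine le_trans (Nat.pow_le_pow_right (by norm_num) ?_) hq1.le
    omega
  · calc 4 * r * (q ^ 2 + 1) ≤ 2 ^ d * 2 ^ (2 * t + 1) := Nat.mul_le_mul (by omega) hqq
      _ = 2 ^ (d + (2 * t + 1)) := (pow_add _ _ _).symm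
      _ ≤ 2 ^ b := Nat.pow_le_pow_right (by norm_num) (by omega)
      _ ≤ n := hb1
  · have h1 : r ≤ 2 ^ r := (Nat.lt_two_pow_self).le
    have h2 : b / 4 + 1 ≤ 2 ^ (b / 4) := Nat.lt_two_pow_self
    have h3 : b + 1 ≤ 2 ^ (b / 4 + 2) := by
      have : 2 ^ (b / 4 + 2) = 4 * 2 ^ (b / 4) := by ring
      omega
    calc 20 * r ^ 2 * (b + 1) ≤ 2 ^ 5 * (2 ^ r) ^ 2 * 2 ^ (b / 4 + 2) :=
          Nat.mul_le_mul (Nat.mul_le_mul (by norm_num) (Nat.pow_le_pow_left h1 2)) h3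
      _ = 2 ^ (5 + r * 2 + (b / 4 + 2)) := by rw [← pow_mul, ← pow_add, ← pow_add]
      _ ≤ 2 ^ b := Nat.pow_le_pow_right (by norm_num) (by omega)
      _ ≤ n := hb1
  · have h1 : n ^ r ≤ 2 ^ ((b + 1) * r) := by
      rw [pow_mul]
      exact Nat.pow_le_pow_left hb2.le r
    have h2 : 2 ^ d + 1 ≤ 2 ^ (d + 1) := by
      have : 2 ^ (d + 1) = 2 * 2 ^ d := by ring
      have h3 : 1 ≤ 2 ^ d := Nat.one_le_two_pow
      omega
    have h3 : (2 ^ d + 1) * n * (q ^ 2 + 1) + 1 ≤ 2 ^ (2 * b) := by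
      have h4 : (2 ^ d + 1) * n * (q ^ 2 + 1) ≤ 2 ^ (d + 1) * 2 ^ (b + 1) * 2 ^ (2 * t + 1) :=
        Nat.mul_le_mul (Nat.mul_le_mul h2 hb2.le) hqq
      have h5 : 2 ^ (d + 1) * 2 ^ (b + 1) * 2 ^ (2 * t + 1) = 2 ^ (d + 1 + (b + 1) + (2 * t + 1)) := by
        rw [← pow_add, ← pow_add]
      have h6 : 1 ≤ 2 ^ (d + 1 + (b + 1) + (2 * t + 1)) := Nat.one_le_two_pow
      have h7 : 2 ^ (d + 1 + (b + 1) + (2 * t + 1) + 1) ≤ 2 ^ (2 * b) :=
        Nat.pow_le_pow_right (by norm_num) (by omega)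
      have h8 : 2 ^ (d + 1 + (b + 1) + (2 * t + 1) + 1) =
          2 * 2 ^ (d + 1 + (b + 1) + (2 * t + 1)) := by ring
      omega
    have h4 : ((2 ^ d + 1) * n * (q ^ 2 + 1) + 1) ^ (4 * r) ≤ 2 ^ (8 * b * r) := by
      calc _ ≤ (2 ^ (2 * b)) ^ (4 * r) := Nat.pow_le_pow_left h3 _
        _ = 2 ^ (8 * b * r) := by rw [← pow_mul]; congr 1; ring
    have h5 : (9 * 2 ^ d + 1) ^ d ≤ 2 ^ ((d + 4) * d) := by
      rw [pow_mul]
      refine Nat.pow_le_pow_left ?_ d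
      have : 2 ^ (d + 4) = 16 * 2 ^ d := by ring
      have h3 : 1 ≤ 2 ^ d := Nat.one_le_two_pow
      omega
    have hexp := expo hd hb3 hr1 ht1
    calc _ ≤ (2 ^ ((b + 1) * r) * 2 ^ (8 * b * r)) ^ 2 * 2 ^ ((d + 4) * d) :=
          Nat.mul_le_mul (Nat.pow_le_pow_left (Nat.mul_le_mul h1 h4) 2) h5
      _ = 2 ^ (2 * ((b + 1) * r + 8 * b * r) + (d + 4) * d) := by
          rw [← pow_add, ← pow_mul, ← pow_add]
          congr 1
          ring
      _ < 2 ^ ((t - 1) * (d - 1)) := Nat.pow_lt_pow_right (by norm_num) hexp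
      _ = (2 ^ (t - 1)) ^ (d - 1) := pow_mul _ _ _
      _ ≤ q ^ (d - 1) := Nat.pow_le_pow_left hq1.le _

theorem final_form {n L S : ℕ} (hn : 1 ≤ n) (h0 : 2 ≤ S)
    (h1 : 1 ≤ L → 20 * (Nat.log 2 n + 1) ≤ n → n ≤ S)
    (h2 : ∀ d, 128 ≤ d → 2 ^ (40 * d) ≤ n → 2 ^ (d + 2) ≤ L → n ^ (d / 128) ≤ S) :
    (n : ℝ) ^ (min (Real.logb 2 L) (Real.logb 2 n) / 30000) ≤ S := by
  have hn' : (1 : ℝ) ≤ n := by exact_mod_cast hn
  have h0' : (2 : ℝ) ≤ S := by exact_mod_cast h0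
  have he0 : 0 ≤ Real.logb 2 n := Real.logb_nonneg (by norm_num) hn'
  rcases Nat.eq_zero_or_pos L with hL | hL
  · subst hL
    have h3 : min (Real.logb 2 ((0 : ℕ) : ℝ)) (Real.logb 2 n) / 30000 = 0 := by
      rw [Nat.cast_zero, Real.logb_zero, min_eq_left he0, zero_div]
    rw [h3, Real.rpow_zero]
    linarith
  have hlog : ∀ x : ℕ, 1 ≤ x → Real.logb 2 x ≤ Nat.log 2 x + 1 := by
    intro x hx
    have h3 : (x : ℝ) ≤ 2 ^ (Nat.log 2 x + 1) := by exact_mod_cast (lt_two_pow_log x).le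
    have hx0 : (0 : ℝ) < x := by exact_mod_cast hx
    calc Real.logb 2 x ≤ Real.logb 2 (2 ^ (Nat.log 2 x + 1)) :=
          Real.logb_le_logb_of_le (by norm_num) hx0 h3
      _ = Nat.log 2 x + 1 := by
          rw [Real.logb_pow, Real.logb_self_eq_one (by norm_num)]
          push_cast
          ring
  have ha := hlog L hL
  have he := hlog n hn
  set A := Nat.log 2 L with hA
  set Bn := Nat.log 2 n with hBn
  set a := Real.logb 2 L with haa
  set e := Real.logb 2 n with hee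
  by_cases hd : 128 ≤ min (A - 2) (Bn / 40)
  · set d := min (A - 2) (Bn / 40) with hdd
    have hdA : d ≤ A - 2 := min_le_left _ _
    have hdB : d ≤ Bn / 40 := min_le_right _ _
    have h3 : 2 ^ (40 * d) ≤ n :=
      (Nat.pow_le_pow_right (by norm_num) (by omega)).trans (two_pow_log hn)
    have h4 : 2 ^ (d + 2) ≤ L :=
      (Nat.pow_le_pow_right (by norm_num) (by omega)).trans (two_pow_log hL)
    have h5 := h2 d hd h3 h4
    have h6 : min a e / 30000 ≤ ((d / 128 : ℕ) : ℝ) := by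
      rcases min_choice (A - 2) (Bn / 40) with h7 | h7
      · have h8 : d = A - 2 := by rw [hdd]; exact h7
        have h9 : A + 1 ≤ 30000 * (d / 128) := by omega
        have h10 : ((A : ℝ) + 1) ≤ 30000 * ((d / 128 : ℕ) : ℝ) := by exact_mod_cast h9
        have h11 := min_le_left a e
        linarith
      · have h8 : d = Bn / 40 := by rw [hdd]; exact h7
        have h9 : Bn + 1 ≤ 30000 * (d / 128) := by omega
        have h10 : ((Bn : ℝ) + 1) ≤ 30000 * ((d / 128 : ℕ) : ℝ) := by exact_mod_cast h9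
        have h11 := min_le_right a e
        linarith
    calc (n : ℝ) ^ (min a e / 30000) ≤ (n : ℝ) ^ ((d / 128 : ℕ) : ℝ) :=
          Real.rpow_le_rpow_of_exponent_le hn' h6
      _ = (n : ℝ) ^ (d / 128 : ℕ) := Real.rpow_natCast _ _
      _ ≤ S := by exact_mod_cast h5
  · have h3 : min a e ≤ 5121 := by
      have h4 : A < 130 ∨ Bn < 5120 := by
        by_contra hcon
        push Not at hcon
        apply hd
        rw [le_min_iff]
        constructor <;> omega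
      rcases h4 with h4 | h4
      · have h5 : (A : ℝ) ≤ 130 := by exact_mod_cast h4.le
        have := min_le_left a e
        linarith
      · have h5 : (Bn : ℝ) ≤ 5120 := by exact_mod_cast h4.le
        have := min_le_right a e
        linarith
    by_cases h4 : 20 * (Bn + 1) ≤ n
    · have h5 := h1 hL h4
      calc (n : ℝ) ^ (min a e / 30000) ≤ (n : ℝ) ^ (1 : ℝ) :=
            Real.rpow_le_rpow_of_exponent_le hn' (by linarith)
        _ = n := Real.rpow_one _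
        _ ≤ S := by exact_mod_cast h5
    · have h5 : n < 160 := by
        by_contra hcon
        push Not at hcon
        exact h4 (small hcon)
      have h6 : Bn ≤ 7 := by
        have : Bn < 8 := Nat.log_lt_of_lt_pow (by omega) (by omega)
        omega
      have h7 : (Bn : ℝ) ≤ 7 := by exact_mod_cast h6
      have h8 : min a e / 30000 ≤ 1 / 8 := by
        have := min_le_right a e
        linarith
      have h9 : (n : ℝ) ≤ 2 ^ (8 : ℝ) := by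
        have : (n : ℝ) ≤ 160 := by exact_mod_cast h5.le
        norm_num
        linarith
      calc (n : ℝ) ^ (min a e / 30000) ≤ (n : ℝ) ^ (1 / 8 : ℝ) :=
            Real.rpow_le_rpow_of_exponent_le hn' h8
        _ ≤ ((2 : ℝ) ^ (8 : ℝ)) ^ (1 / 8 : ℝ) :=
            Real.rpow_le_rpow (by positivity) h9 (by norm_num)
        _ = 2 := by
            rw [← Real.rpow_mul (by norm_num)]
            norm_num
        _ ≤ S := h0'

end Pool.Agent.Lib.Pe46137M
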