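import Pool.Agent.Lib.Pe46137M.Defs

/-!
MODULE Reach (about 1.5 h). Reachability in the digraphs `GR`.

For a layer `c` let `idx c` be the number of `i` with `μ i < c` (so `idx (μ i) = i`,
`idx (μ i + 1) = i + 1`, `idx 0 = 0`, `idx k = m`, and `idx (c + 1) = idx c` if `c` is not a `μ i`).

`reach_path`: by induction on `c ≤ k` the vertex `a c` of the layer `c` is reachable from the start,
where `a c = (c, b i)` if `c = μ i`, for some `b i` with `ρ i (b i) = some (w i, w (i + 1))`
(it exists: `Good` with `1 ≤ M`), and `a c = (c, nd m p q ι (idx c) (w (idx c)))` if `c` is not a `μ i`.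
The arc from `a c` to `a (c + 1)` is in `GR` by its definition in the three cases (neither `c` nor
`c + 1` is a `μ i`: same `idx`; `c + 1 = μ i`: `idx c = i`; `c = μ i`: `idx (c + 1) = i + 1`).
`a 0 = start k p`, `a k = goal k q` (`idx k = m`, `m ≠ 0`).

`not_reach_cut`: the set of vertices `v` with the following property is closed under the arcs of
`GR`, contains the start and not the goal: if `v.1 = μ i` then `ρ i v.2 = some (u, z)` for some
`u, z` with `cutv x i u = true`; if `v.1` is not a `μ i` then `v.2 = nd (l + 1) p q ι j z` for some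
`z` with `cutv x j z = true`, `j = idx v.1`. Arc into `(μ i, b)` from the layer before: there
`v.2 = nd i z`, `cutv x i z = true` and `v.2 = nd i u`; if `i = 0` then `cutv x 0 u = true` (`ext_zero`),
else `z = u` because `ι` is injective. Arc out of `(μ i, b)`, `ρ i b = some (u, z)`,
`cutv x i u = true`: `(u, z) ∈ HX x i` (second part of `Good`) gives `cutv x (i + 1) z = true`. The
goal has `idx = l + 1` and `cutv x (l + 1) z = false` (`ext_last`). `Z` is nonempty by `[Nonempty Z]`
(needed for the start).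
-/

namespace Pool.Agent.Lib.Pe46137M

open Finset Pool.Agent.Lib.Pe46137 Pool.Agent.Lib.Pe46137L

variable {k n M : ℕ} {Z : Type} [DecidableEq Z]

namespace ReachAux

/-- the number of the layers `μ i` before the layer `c` -/
def idx {m : ℕ} (μ : Fin m → ℕ) (c : ℕ) : ℕ := (univ.filter (fun i : Fin m => μ i < c)).card

theorem lt_iff {k m : ℕ} {μ : Fin m → ℕ} (hμ : Spaced k μ) (i j : Fin m) :
    μ i < μ j ↔ i < j := by
  constructor
  · intro h
    rcases lt_trichotomy i j with h1 | h1 | h1
    · exact h1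
    · subst h1; omega
    · have := hμ.gap j i h1; omega
  · intro h
    have := hμ.gap i j h
    omega

theorem idx_at {k m : ℕ} {μ : Fin m → ℕ} (hμ : Spaced k μ) (i : Fin m) :
    idx μ (μ i) = i := by
  have h1 : (univ.filter (fun j : Fin m => μ j < μ i)) = Finset.Iio i := by
    ext j
    simp only [mem_filter, mem_univ, true_and, Finset.mem_Iio]
    exact lt_iff hμ j i
  rw [idx, h1, Fin.card_Iio]

theorem idx_succ_at {k m : ℕ} {μ : Fin m → ℕ} (hμ : Spaced k μ) (i : Fin m) :
    idx μ (μ i + 1) = i + 1 := by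
  have h1 : (univ.filter (fun j : Fin m => μ j < μ i + 1)) = Finset.Iic i := by
    ext j
    simp only [mem_filter, mem_univ, true_and, Finset.mem_Iic]
    have := lt_iff hμ i j
    rw [← not_lt, ← this]
    omega
  rw [idx, h1, Fin.card_Iic]

theorem idx_zero {m : ℕ} (μ : Fin m → ℕ) : idx μ 0 = 0 := by
  simp [idx]

theorem idx_last {k m : ℕ} {μ : Fin m → ℕ} (hμ : Spaced k μ) : idx μ k = m := by
  have h1 : (univ.filter (fun j : Fin m => μ j < k)) = univ := by
    ext j
    simp only [mem_filter, mem_univ, true_and, iff_true]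
    exact hμ.lt j
  rw [idx, h1, card_univ, Fintype.card_fin]

theorem idx_succ {m : ℕ} {μ : Fin m → ℕ} {c : ℕ} (hc : ∀ i, c ≠ μ i) :
    idx μ (c + 1) = idx μ c := by
  rw [idx, idx]
  congr 1
  ext j
  simp only [mem_filter, mem_univ, true_and]
  have := hc j
  omega

end ReachAux

open ReachAux

theorem reach_path {m : ℕ} {μ : Fin m → ℕ} (hμ : Spaced k μ) (hm : 0 < m) (hM : 0 < M)
    (p q : Fin n) (ι : Z → Fin n) (w : ℕ → Z) {ρ : Fin m → Fin n → Option (Z × Z)}
    (h : Good M (HP w) ρ) :
    Reachable (GR μ (nd m p q ι) ρ) (start k p) (goal k q) := by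
  have hb : ∀ i : Fin m, ∃ b, ρ i b = some (w i, w (i + 1)) := by
    intro i
    have h1 := (h i (w i, w (i + 1))).1 rfl
    have h2 : (univ.filter (fun b => ρ i b = some (w i, w (i + 1)))).Nonempty := by
      rw [← card_pos, h1]
      exact hM
    obtain ⟨b, hb⟩ := h2
    exact ⟨b, (mem_filter.1 hb).2⟩
  choose b hb using hb
  classical
  set a : ℕ → Fin n := fun c => if h : ∃ i, c = μ i then b h.choose else
    nd m p q ι (idx μ c) (w (idx μ c)) with ha
  have ha1 : ∀ i c, c = μ i → a c = b i := by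
    intro i c hc
    have h1 : ∃ i, c = μ i := ⟨i, hc⟩
    have h2 : h1.choose = i := hμ.injective (h1.choose_spec.symm.trans hc)
    simp only [ha]
    rw [dif_pos h1, h2]
  have ha2 : ∀ c, (∀ i, c ≠ μ i) → a c = nd m p q ι (idx μ c) (w (idx μ c)) := by
    intro c hc
    have h1 : ¬ ∃ i, c = μ i := fun ⟨i, hi⟩ => hc i hi
    simp only [ha]
    rw [dif_neg h1]
  have key : ∀ c (hc : c ≤ k), Reachable (GR μ (nd m p q ι) ρ) (start k p)
      ((⟨c, Nat.lt_succ_of_le hc⟩, a c) : Vtx k n) := by
    intro c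
    induction c with
    | zero =>
      intro hc
      have h0 : a 0 = p := by
        rw [ha2 0 (fun i => (hμ.pos i).ne), idx_zero]
        simp [nd]
      rw [h0]
      exact Relation.ReflTransGen.refl
    | succ c ih =>
      intro hc
      refine (ih (by omega)).tail ?_
      refine ⟨rfl, ?_, ?_, ?_⟩
      · intro h1 h2
        change a c = a (c + 1)
        rw [ha2 c h1, ha2 (c + 1) h2, idx_succ h1]
      · intro i hi
        replace hi : c + 1 = μ i := hi
        have h1 : ∀ j, c ≠ μ j := fun j hj => hμ.succ_ne j i (by rw [← hj]; exact hi)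
        refine ⟨w i, w (i + 1), ?_, ?_⟩
        · change ρ i (a (c + 1)) = _
          rw [ha1 i _ hi, hb]
        · change a c = _
          rw [ha2 c h1, ← idx_succ h1, hi, idx_at hμ]
      · intro i hi
        replace hi : c = μ i := hi
        have h1 : ∀ j, c + 1 ≠ μ j := fun j hj => hμ.succ_ne i j (by rw [← hi]; exact hj)
        refine ⟨w i, w (i + 1), ?_, ?_⟩
        · change ρ i (a c) = _
          rw [ha1 i _ hi, hb]
        · change a (c + 1) = _
          rw [ha2 _ h1, hi, idx_succ_at hμ]
  have h1 := key k le_rfl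
  have h2 : a k = q := by
    rw [ha2 k (fun i => (hμ.lt i).ne'), idx_last hμ]
    simp [nd, hm.ne']
  rw [h2] at h1
  exact h1

theorem not_reach_cut [Nonempty Z] {l : ℕ} {μ : Fin (l + 1) → ℕ} (hμ : Spaced k μ)
    (p q : Fin n) {ι : Z → Fin n} (hι : Function.Injective ι) (x : Fin l × Z → Bool)
    {ρ : Fin (l + 1) → Fin n → Option (Z × Z)} (h : Good M (HX x) ρ) :
    ¬ Reachable (GR μ (nd (l + 1) p q ι) ρ) (start k p) (goal k q) := by
  intro hr
  have key : ∀ v, Reachable (GR μ (nd (l + 1) p q ι) ρ) (start k p) v →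
      (∀ i, (v.1 : ℕ) = μ i → ∃ u z, ρ i v.2 = some (u, z) ∧ cutv x i u = true) ∧
      ((∀ i, (v.1 : ℕ) ≠ μ i) → ∃ z, v.2 = nd (l + 1) p q ι (idx μ v.1) z ∧
        cutv x (idx μ v.1) z = true) := by
    intro v hv
    induction hv with
    | refl =>
      have h0 : ((start k p).1 : ℕ) = 0 := rfl
      refine ⟨fun i hi => ?_, fun _ => ?_⟩
      · have := hμ.pos i
        omega
      · obtain ⟨z⟩ := ‹Nonempty Z›
        refine ⟨z, ?_, ?_⟩
        · rw [h0, idx_zero]
          simp [nd, start]
        · rw [h0, idx_zero]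
          exact ext_zero _
    | @tail v v' _ hvv ih =>
      obtain ⟨h1, h2, h3, h4⟩ := hvv
      simp only at h1 h2 h3 h4
      refine ⟨fun i hi => ?_, fun hi => ?_⟩
      · obtain ⟨u, z, h5, h6⟩ := h3 i hi
        refine ⟨u, z, h5, ?_⟩
        have h7 : ∀ j, (v.1 : ℕ) ≠ μ j := fun j hj =>
          hμ.succ_ne j i (by rw [← hj, ← h1]; exact hi)
        obtain ⟨z', h8, h9⟩ := ih.2 h7
        have h10 : idx μ (v.1 : ℕ) = i := by
          rw [← idx_succ h7, ← h1, hi, idx_at hμ]
        rw [h10] at h8 h9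
        by_cases hi0 : (i : ℕ) = 0
        · rw [hi0]
          exact ext_zero _
        · have hil : (i : ℕ) ≠ l + 1 := i.2.ne
          rw [h6] at h8
          simp only [nd, if_neg hi0, if_neg hil] at h8
          rw [hι h8]
          exact h9
      · by_cases h5 : ∃ i, (v.1 : ℕ) = μ i
        · obtain ⟨i, hi'⟩ := h5
          obtain ⟨u, z, h6, h7⟩ := h4 i hi'
          obtain ⟨u', z', h8, h9⟩ := ih.1 i hi'
          have h10 : (u', z') = (u, z) := Option.some.inj (h8.symm.trans h6)
          obtain ⟨rfl, rfl⟩ := Prod.mk.inj h10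
          have h11 : idx μ (v'.1 : ℕ) = i + 1 := by
            rw [h1, hi', idx_succ_at hμ]
          refine ⟨z', by rw [h11]; exact h7, ?_⟩
          rw [h11]
          by_contra hc
          have h12 : (u', z') ∉ HX x i := fun h13 => h13 ⟨h9, by simpa using hc⟩
          exact (h i (u', z')).2 h12 _ h6
        · push Not at h5
          obtain ⟨z, h6, h7⟩ := ih.2 h5
          have h8 : idx μ (v'.1 : ℕ) = idx μ (v.1 : ℕ) := by
            rw [h1, idx_succ h5]
          exact ⟨z, by rw [h8, ← h2 h5 hi]; exact h6, by rw [h8]; exact h7⟩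
  have h1 := (key _ hr).2 (fun i => (hμ.lt i).ne')
  obtain ⟨z, -, h3⟩ := h1
  have h4 : ((goal k q).1 : ℕ) = k := rfl
  rw [h4, idx_last hμ] at h3
  have h5 : cutv x (l + 1) z = false := ext_last _ le_rfl
  rw [h5] at h3
  exact absurd h3 (by simp)

end Pool.Agent.Lib.Pe46137M
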