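import Pool.Agent.Lib.Pe46137M.Defs

/-!
MODULE Walk (about 1.5 h). From a walk of the network to a walk on pairs (state, roles).

`walk`: by induction on `EqvGen` it is enough to treat one closed contact between `a` and `b`
(reflexivity, symmetry and transitivity of `EqvGen (Stp …)` are clear because the end points are
`(a, gr ρ (supp (T a)))`, `(b, gr ρ (supp (T b)))`). Let `N.Closed (GR μ ν ρ) (GR μ ν ρ)ᶜ a b`.
Let `D = supp (T a) ∪ supp (T b) ∪ E`, where `E` has at most two elements and contains the ends of the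
arc `e` of the contact in the layers `μ i` (`E = ∅` for a wire; otherwise `E` = the pairs `(i, e.1.2)`
with `e.1.1 = μ i` and `(i, e.2.2)` with `e.2.1 = μ i`; at most one `i` each because `μ` is injective).
`D.card ≤ r`. Then `(a, gr ρ D)` and `(b, gr ρ D)` are joined by the second alternative of `Stp`, and
`(a, gr ρ (supp (T a)))` is joined to `(a, gr ρ D)` by adding the elements of `D` one by one
(first alternative; `Finset.induction_on` on the set of added elements, all sets stay inside `D`), same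
for `b`.
`gr_card`: `Finset.card_image_le`.
-/

namespace Pool.Agent.Lib.Pe46137M

open Finset Pool.Agent.Lib.Pe46137 Pool.Agent.Lib.Pe46137L

variable {k n m : ℕ} {Z : Type} [DecidableEq Z] {W : Type} {μ : Fin m → ℕ} {ν : ℕ → Z → Fin n}

/-- the contact between `a` and `b` is closed on `GR μ ν ρ`, and the ends of its arc in the layers
`μ i` lie in `D` -/
def ClosedIn (N : SwitchingNetwork (Vtx k n × Vtx k n) W) (μ : Fin m → ℕ) (ν : ℕ → Z → Fin n)
    (ρ : Fin m → Fin n → Option (Z × Z)) (D : Finset (Fin m × Fin n)) (a b : W) : Prop :=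
  N.wire a b ∨ (∃ e, e ∈ GR (k := k) μ ν ρ ∧ Ends μ e D ∧ N.pos e a b) ∨
    ∃ e, e ∉ GR (k := k) μ ν ρ ∧ Ends μ e D ∧ N.neg e a b

/-- one step on the pairs of a state and a set of roles -/
def Stp (N : SwitchingNetwork (Vtx k n × Vtx k n) W) (T : W → Fin m → Finset (Fin n)) (r : ℕ)
    (μ : Fin m → ℕ) (ν : ℕ → Z → Fin n) (ρ : Fin m → Fin n → Option (Z × Z))
    (A B : W × Finset ((Fin m × Fin n) × Option (Z × Z))) : Prop :=
  (A.1 = B.1 ∧ ∃ D c, supp (T A.1) ⊆ D ∧ c ∉ D ∧ D.card + 1 ≤ r ∧ A.2 = gr ρ D ∧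
    B.2 = gr ρ (insert c D)) ∨
  (∃ D, supp (T A.1) ⊆ D ∧ supp (T B.1) ⊆ D ∧ D.card ≤ r ∧ A.2 = gr ρ D ∧ B.2 = gr ρ D ∧
    ClosedIn N μ ν ρ D A.1 B.1)

namespace WalkAux

theorem chain (N : SwitchingNetwork (Vtx k n × Vtx k n) W) (T : W → Fin m → Finset (Fin n)) {r : ℕ}
    (μ : Fin m → ℕ) (ν : ℕ → Z → Fin n) (ρ : Fin m → Fin n → Option (Z × Z)) {a : W}
    {D₀ : Finset (Fin m × Fin n)} (h₀ : supp (T a) ⊆ D₀) (S : Finset (Fin m × Fin n)) :
    (D₀ ∪ S).card ≤ r →
      Relation.EqvGen (Stp N T r μ ν ρ) (a, gr ρ D₀) (a, gr ρ (D₀ ∪ S)) := by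
  classical
  induction S using Finset.induction_on with
  | empty =>
    intro _
    rw [Finset.union_empty]
    exact Relation.EqvGen.refl _
  | insert c S _ ih =>
    intro hc
    rw [Finset.union_insert] at hc ⊢
    by_cases hm : c ∈ D₀ ∪ S
    · rw [Finset.insert_eq_of_mem hm] at hc ⊢
      exact ih hc
    · rw [Finset.card_insert_of_notMem hm] at hc
      refine (ih (by omega)).trans _ _ _ (Relation.EqvGen.rel _ _ (Or.inl ⟨rfl, D₀ ∪ S, c, ?_, hm, hc,
        rfl, rfl⟩))
      exact h₀.trans Finset.subset_union_left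

theorem ends_exists (hμ : Function.Injective μ) (e : Vtx k n × Vtx k n) :
    ∃ E : Finset (Fin m × Fin n), E.card ≤ 2 ∧ Ends μ e E := by
  classical
  have h1 : ∀ x : ℕ, (univ.filter fun i : Fin m => x = μ i).card ≤ 1 := by
    intro x
    rw [Finset.card_le_one]
    intro i hi j hj
    rw [Finset.mem_filter] at hi hj
    exact hμ (hi.2.symm.trans hj.2)
  refine ⟨((univ.filter fun i : Fin m => (e.1.1 : ℕ) = μ i).image fun i => (i, e.1.2)) ∪
    ((univ.filter fun i : Fin m => (e.2.1 : ℕ) = μ i).image fun i => (i, e.2.2)), ?_, ?_⟩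
  · refine (Finset.card_union_le _ _).trans ?_
    have h2 := (Finset.card_image_le (s := univ.filter fun i : Fin m => (e.1.1 : ℕ) = μ i)
      (f := fun i => (i, e.1.2))).trans (h1 _)
    have h3 := (Finset.card_image_le (s := univ.filter fun i : Fin m => (e.2.1 : ℕ) = μ i)
      (f := fun i => (i, e.2.2))).trans (h1 _)
    omega
  · intro i
    refine ⟨fun h => ?_, fun h => ?_⟩
    · apply Finset.mem_union_left
      exact Finset.mem_image.mpr ⟨i, by simp [h], rfl⟩
    · apply Finset.mem_union_right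
      exact Finset.mem_image.mpr ⟨i, by simp [h], rfl⟩

theorem ends_mono {e : Vtx k n × Vtx k n} {D D' : Finset (Fin m × Fin n)} (h : Ends μ e D)
    (hD : D ⊆ D') : Ends μ e D' := fun i =>
  ⟨fun h1 => hD ((h i).1 h1), fun h1 => hD ((h i).2 h1)⟩

omit [DecidableEq Z] in
theorem closedIn_exists (hμ : Function.Injective μ) (N : SwitchingNetwork (Vtx k n × Vtx k n) W)
    (ρ : Fin m → Fin n → Option (Z × Z)) {a b : W} (h : N.Closed (GR μ ν ρ) (GR μ ν ρ)ᶜ a b) :
    ∃ E : Finset (Fin m × Fin n), E.card ≤ 2 ∧ ∀ D, E ⊆ D → ClosedIn N μ ν ρ D a b := by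
  rcases h with h | ⟨e, he, h⟩ | ⟨e, he, h⟩
  · exact ⟨∅, by simp, fun D _ => Or.inl h⟩
  · obtain ⟨E, hE, hEn⟩ := ends_exists (n := n) hμ e
    exact ⟨E, hE, fun D hD => Or.inr (Or.inl ⟨e, he, ends_mono hEn hD, h⟩)⟩
  · obtain ⟨E, hE, hEn⟩ := ends_exists (n := n) hμ e
    exact ⟨E, hE, fun D hD => Or.inr (Or.inr ⟨e, he, ends_mono hEn hD, h⟩)⟩

theorem one_step (hμ : Function.Injective μ) (N : SwitchingNetwork (Vtx k n × Vtx k n) W)
    (T : W → Fin m → Finset (Fin n)) {s r : ℕ} (hs : ∀ a, (supp (T a)).card ≤ s)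
    (hr : 2 * s + 2 ≤ r) (ρ : Fin m → Fin n → Option (Z × Z)) {a b : W}
    (h : N.Closed (GR μ ν ρ) (GR μ ν ρ)ᶜ a b) :
    Relation.EqvGen (Stp N T r μ ν ρ) (a, gr ρ (supp (T a))) (b, gr ρ (supp (T b))) := by
  classical
  obtain ⟨E, hE, hEn⟩ := closedIn_exists hμ N ρ h
  have hcard : (supp (T a) ∪ (supp (T b) ∪ E)).card ≤ r := by
    have h1 := Finset.card_union_le (supp (T a)) (supp (T b) ∪ E)
    have h2 := Finset.card_union_le (supp (T b)) E
    have h3 := hs a
    have h4 := hs b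
    omega
  have heq : supp (T b) ∪ (supp (T a) ∪ E) = supp (T a) ∪ (supp (T b) ∪ E) := by
    rw [← Finset.union_assoc, ← Finset.union_assoc, Finset.union_comm (supp (T b))]
  have c1 := chain N T (r := r) μ ν ρ (a := a) (D₀ := supp (T a)) (Finset.Subset.refl _)
    (supp (T b) ∪ E) hcard
  have c2 := chain N T (r := r) μ ν ρ (a := b) (D₀ := supp (T b)) (Finset.Subset.refl _)
    (supp (T a) ∪ E) (by rw [heq]; exact hcard)
  rw [heq] at c2
  refine c1.trans _ _ _ (Relation.EqvGen.trans _ _ _ (Relation.EqvGen.rel _ _ (Or.inr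
    ⟨supp (T a) ∪ (supp (T b) ∪ E), ?_, ?_, hcard, rfl, rfl, hEn _ ?_⟩)) (c2.symm _ _))
  · exact Finset.subset_union_left
  · exact Finset.subset_union_left.trans Finset.subset_union_right
  · exact Finset.subset_union_right.trans Finset.subset_union_right

end WalkAux

theorem gr_card (ρ : Fin m → Fin n → Option (Z × Z)) (D : Finset (Fin m × Fin n)) :
    (gr ρ D).card ≤ D.card :=
  Finset.card_image_le

theorem walk (hμ : Function.Injective μ) (N : SwitchingNetwork (Vtx k n × Vtx k n) W)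
    (T : W → Fin m → Finset (Fin n)) {s r : ℕ} (hs : ∀ a, (supp (T a)).card ≤ s)
    (hr : 2 * s + 2 ≤ r) (ρ : Fin m → Fin n → Option (Z × Z)) {a b : W}
    (h : Relation.EqvGen (N.Closed (GR μ ν ρ) (GR μ ν ρ)ᶜ) a b) :
    Relation.EqvGen (Stp N T r μ ν ρ) (a, gr ρ (supp (T a))) (b, gr ρ (supp (T b))) := by
  induction h with
  | rel x y h => exact WalkAux.one_step hμ N T hs hr ρ h
  | refl x => exact Relation.EqvGen.refl _
  | symm x y _ ih => exact ih.symm _ _
  | trans x y z _ _ ih1 ih2 => exact ih1.trans _ _ _ ih2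

end Pool.Agent.Lib.Pe46137M
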