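import Pool.Agent.Lib.Pe46137M.SuppP
import Pool.Agent.Lib.Pe46137M.Known
import Pool.Agent.Lib.Pe46137M.Ext
import Pool.Agent.Lib.Pe46137M.Reach
import Pool.Agent.Lib.Pe46137M.Walk
import Pool.Agent.Lib.Pe46137M.Count
import Pool.Agent.Lib.Pe46137M.NumM
import Pool.Agent.Lib.Pe46137L.Num
import Pool.Agent.Lib.Pe46137.Core
import Pool.Agent.Lib.Pe46137.Family
import Pool.Agent.Lib.Pe46137.Sym.PriceCost

/-!
The lower bound for networks that are invariant inside arbitrary layers.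
-/

namespace Pool.Agent.Lib.Pe46137M

open Finset Pool.Agent.Lib.Pe46137 Pool.Agent.Lib.Pe46137L

theorem toNet_closed {V W : Type*} (N : SwitchingNetwork (V × V) W) (G : Set (V × V)) :
    (Sym.toNet N).Closed G = N.Closed G Gᶜ := by
  funext v w
  apply propext
  constructor
  · rintro ((h | ⟨e, he, h⟩) | ⟨e, he, h⟩)
    · exact Or.inl h
    · exact Or.inr (Or.inr ⟨e, he, h⟩)
    · exact Or.inr (Or.inl ⟨e, he, h⟩)
  · rintro (h | ⟨e, he, h⟩ | ⟨e, he, h⟩)
    · exact Or.inl (Or.inl h)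
    · exact Or.inr ⟨e, he, h⟩
    · exact Or.inl (Or.inr ⟨e, he, h⟩)

/-- the renamings inside the layers `μ i` that extend to an automorphism fixing the state -/
def stabM {k n m : ℕ} {W : Type*} (N : Sym.Network (Vtx k n) W) (μ : Fin m → ℕ) (w : W) :
    Subgroup (Fin m → Equiv.Perm (Fin n)) where
  carrier := {σ | ∃ ρ, N.Lifts (spr μ σ) ρ ∧ ρ w = w}
  mul_mem' := by
    rintro σ τ ⟨ρ, h1, h2⟩ ⟨ρ', h1', h2'⟩
    refine ⟨ρ * ρ', ?_, ?_⟩
    · rw [spr_mul]; exact h1.mul h1'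
    · rw [Equiv.Perm.mul_apply, h2', h2]
  one_mem' := ⟨1, by rw [spr_one]; exact Sym.lifts_one, rfl⟩
  inv_mem' := by
    rintro σ ⟨ρ, h1, h2⟩
    refine ⟨ρ⁻¹, ?_, ?_⟩
    · rw [spr_inv]; exact h1.inv
    · rw [Equiv.Perm.inv_eq_iff_eq]; exact h2.symm

theorem card_supp {n m : ℕ} (T : Fin m → Finset (Fin n)) :
    (supp T).card = ∑ i, (T i).card := by
  classical
  unfold supp
  rw [card_filter, Fintype.sum_prod_type]
  refine sum_congr rfl fun i _ => ?_
  rw [← card_filter]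
  congr 1
  ext b
  simp

theorem exists_supports {k n m r : ℕ} {μ : Fin m → ℕ} {Λ : Finset ℕ} (hΛ : ∀ i, μ i ∈ Λ)
    {W : Type} [Fintype W] {N : SwitchingNetwork (Vtx k n × Vtx k n) W}
    (hN : InvariantInside N Λ) (hr : 1 ≤ r) (hn1 : 1 < n) (hW : Fintype.card W < n ^ r)
    (hn : 20 * r ^ 2 * (Nat.log 2 n + 1) ≤ n) (w : W) :
    ∃ T : Fin m → Finset (Fin n), (∀ i, (T i).card < 2 * r) ∧
      (∀ i, ∀ b c e, b ∉ T i → c ∉ T i → e ∉ T i → b ≠ c → c ≠ e → b ≠ e →
        ∃ ρ, (Sym.toNet N).Lifts (spr μ (Pi.mulSingle i (Sym.cyc b c e))) ρ ∧ ρ w = w) ∧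
      (supp T).card < 2 * r := by
  obtain ⟨n1, n2, n3, n4, n5⟩ := numerics (r := r) hr hn
  obtain ⟨d, rfl⟩ : ∃ d, r = d + 1 := ⟨r - 1, by omega⟩
  choose ρ hρ using fun σ : Fin m → Equiv.Perm (Fin n) => hN (spr μ σ) (spr_inside hΛ σ)
  obtain ⟨T, hT1, hT2, hT3⟩ := layer_supports_prod (stabM (Sym.toNet N) μ w)
    (fun σ => ρ σ w) (q := 2 * (d + 1)) (y := (Nat.log 2 n + 1) * (d + 1) + 1) (by
      intro σ σ' h
      refine ⟨(ρ σ')⁻¹ * ρ σ, ?_, ?_⟩
      · rw [spr_mul, spr_inv]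
        exact (Sym.toNet_lifts (hρ σ')).inv.mul (Sym.toNet_lifts (hρ σ))
      · rw [Equiv.Perm.mul_apply, Equiv.Perm.inv_eq_iff_eq]; exact h)
    (by rw [Fintype.card_fin]; exact hW) (by rw [Fintype.card_fin]; exact n1)
    (by rw [Fintype.card_fin]; exact n2) (by rw [Fintype.card_fin]; exact n3)
    (by rw [Fintype.card_fin]; exact n4) (by rw [Fintype.card_fin]; omega)
  refine ⟨T, hT1, hT2, ?_⟩
  rw [card_supp]
  rw [Fintype.card_fin] at hT3
  refine sum_le hn1 (fun i => (T i).card) ?_ hT3 hW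
  intro i
  have h1 : (T i).card ^ 2 ≤ (2 * (d + 1)) ^ 2 := Nat.pow_le_pow_left (hT1 i).le 2
  have h2 : 20 * (d + 1) ^ 2 * 1 ≤ 20 * (d + 1) ^ 2 * (Nat.log 2 n + 1) :=
    Nat.mul_le_mul_left _ (by omega)
  nlinarith

section

variable {k n m : ℕ} {Z : Type} {μ : Fin m → ℕ} {ν : ℕ → Z → Fin n}

theorem mem_GR_congr {ρ ρ' : Fin m → Fin n → Option (Z × Z)} {D : Finset (Fin m × Fin n)}
    (h : ∀ c ∈ D, ρ c.1 c.2 = ρ' c.1 c.2) {e : Vtx k n × Vtx k n} (he : Ends μ e D) :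
    e ∈ GR μ ν ρ ↔ e ∈ GR μ ν ρ' := by
  constructor
  · rintro ⟨h1, h2, h3, h4⟩
    refine ⟨h1, h2, fun i hi => ?_, fun i hi => ?_⟩
    · rw [← h _ ((he i).2 hi)]; exact h3 i hi
    · rw [← h _ ((he i).1 hi)]; exact h4 i hi
  · rintro ⟨h1, h2, h3, h4⟩
    refine ⟨h1, h2, fun i hi => ?_, fun i hi => ?_⟩
    · rw [h _ ((he i).2 hi)]; exact h3 i hi
    · rw [h _ ((he i).1 hi)]; exact h4 i hi

end

theorem cutv_path {l q : ℕ} (x : Fin l × ZMod q → Bool) (P : Polynomial (ZMod q)) (j : ℕ) :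
    cutv x j (P.eval ((j - 1 : ℕ) : ZMod q)) =
      Pool.Agent.Lib.Pe46137.ext (fun i => x (pathOf l q P i)) j := by
  unfold cutv Pool.Agent.Lib.Pe46137.ext
  by_cases h0 : j = 0
  · rw [if_pos h0, if_pos h0]
  · rw [if_neg h0, if_neg h0]
    by_cases h1 : j - 1 < l
    · rw [dif_pos h1, dif_pos h1]
      rfl
    · rw [dif_neg h1, dif_neg h1]

open scoped Classical in
theorem core_bound {k n d l q r : ℕ} [Fact q.Prime] (hd : 2 ≤ d) (hl : 2 ^ d ≤ l) (hlq : l ≤ q)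
    (hr : 1 ≤ r) {μ : Fin (l + 1) → ℕ} (hμ : Spaced k μ) {Λ : Finset ℕ} (hΛ : ∀ i, μ i ∈ Λ)
    (p q' : Fin n) {W : Type} [Fintype W] (N : SwitchingNetwork (Vtx k n × Vtx k n) W)
    (hN : InvariantInside N Λ) (hdec : N.DecidesOn (Layered k n) (start k p) (goal k q'))
    (hS : Fintype.card W < n ^ r) (h20 : 20 * r ^ 2 * (Nat.log 2 n + 1) ≤ n)
    (hn : 4 * r * (q ^ 2 + 1) ≤ n) :
    ((q ^ (d - 1) : ℕ) : ℝ) ≤
      ((Fintype.card W * ((((l + 1) * n) * (q ^ 2 + 1) + 1) ^ (4 * r)) : ℕ) : ℝ) ^ 2 *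
        (9 * l + 1) ^ d := by
  have hq0 : NeZero q := ⟨(Fact.out : q.Prime).ne_zero⟩
  have hq2 : 2 ≤ q := (Fact.out : q.Prime).two_le
  have hcardZ : Fintype.card (ZMod q × ZMod q) = q ^ 2 := by
    rw [Fintype.card_prod, ZMod.card, sq]
  have hn' : 4 * r * (Fintype.card (ZMod q × ZMod q) + 1) ≤ n := by rw [hcardZ]; exact hn
  have hqn : q ≤ n := by nlinarith
  have hn1 : 1 < n := by omega
  set M : ℕ := 4 * r with hM
  -- supports
  choose T₀ hT1 hT2 hT3 using fun w => exists_supports (N := N) hΛ hN hr hn1 hS h20 w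
  set T : W → Fin (l + 1) → Finset (Fin n) := fun w =>
    if w = N.source ∨ w = N.sink then fun _ => ∅ else T₀ w with hT
  have hTs : T N.source = fun _ => ∅ := by simp [hT]
  have hTt : T N.sink = fun _ => ∅ := by simp [hT]
  have hTc : ∀ w i, (T w i).card < 2 * r := by
    intro w i
    by_cases h : w = N.source ∨ w = N.sink
    · simp only [hT, if_pos h, card_empty]; omega
    · simp only [hT, if_neg h]; exact hT1 w i
  have hTl : ∀ w i, ∀ b c e, b ∉ T w i → c ∉ T w i → e ∉ T w i → b ≠ c → c ≠ e → b ≠ e →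
      ∃ ρ, (Sym.toNet N).Lifts (spr μ (Pi.mulSingle i (Sym.cyc b c e))) ρ ∧ ρ w = w := by
    intro w i b c e hb hc he hbc hce hbe
    by_cases h : w = N.source ∨ w = N.sink
    · obtain ⟨ρ, hρ⟩ := hN (spr μ (Pi.mulSingle i (Sym.cyc b c e))) (spr_inside hΛ _)
      refine ⟨ρ, Sym.toNet_lifts hρ, ?_⟩
      rcases h with h | h
      · rw [h]; exact hρ.source
      · rw [h]; exact hρ.sink
    · simp only [hT, if_neg h] at hb hc he
      exact hT2 w i b c e hb hc he hbc hce hbe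
  have hTsupp : ∀ w, (supp (T w)).card ≤ 2 * r - 1 := by
    intro w
    by_cases h : w = N.source ∨ w = N.sink
    · simp only [hT, if_pos h]
      rw [card_supp]
      simp
    · simp only [hT, if_neg h]
      have := hT3 w
      omega
  -- names
  obtain ⟨ι, hι⟩ : ∃ ι : ZMod q → Fin n, Function.Injective ι := by
    obtain ⟨g⟩ := Function.Embedding.nonempty_of_card_le
      (α := ZMod q) (β := Fin n) (by rw [ZMod.card, Fintype.card_fin]; exact hqn)
    exact ⟨g, g.injective⟩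
  set ν : ℕ → ZMod q → Fin n := nd (l + 1) p q' ι with hν
  -- the value of a pair
  set J : W × {R : Finset ((Fin (l + 1) × Fin n) × Option (ZMod q × ZMod q)) // R.card ≤ M} →
      (Fin l × ZMod q → Bool) → ℝ := fun A x =>
    if ∃ ρ : Fin (l + 1) → Fin n → Option (ZMod q × ZMod q), Good M (HX x) ρ ∧
      (∀ z ∈ A.2.1, ρ z.1.1 z.1.2 = z.2) ∧ Sym.Known (Sym.toNet N) (GR μ ν ρ) A.1 then 1 else 0
    with hJ
  -- the paths
  have hfin : Finite (Polynomial.degreeLT (ZMod q) (d - 1)) :=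
    Finite.of_equiv _ (Polynomial.degreeLTEquiv (ZMod q) (d - 1)).toEquiv.symm
  have hfin' : Fintype (Polynomial.degreeLT (ZMod q) (d - 1)) := Fintype.ofFinite _
  set Fm := Polynomial.degreeLT (ZMod q) (d - 1) with hFm
  set w : Fm → ℕ → ZMod q := fun f j => f.1.eval ((j - 1 : ℕ) : ZMod q) with hw
  have hcross : ∀ (f : Fm) (x : Fin l × ZMod q → Bool) (i : ℕ),
      ¬ Cross i (fun j => x (pathOf l q f.1 j)) ↔
        ¬ (cutv x i (w f i) = true ∧ cutv x (i + 1) (w f (i + 1)) = false) := by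
    intro f x i
    rw [hw]
    simp only
    rw [cutv_path, cutv_path]
    rfl
  have hρex : ∀ f : Fm, ∃ ρ : Fin (l + 1) → Fin n → Option (ZMod q × ZMod q),
      Good M (HP (w f)) ρ := by
    intro f
    obtain ⟨ρ, h1, -⟩ := exists_good (m := l + 1) hn' (HP (w f)) ∅ (by simp) (by simp) (by simp)
    exact ⟨ρ, h1⟩
  choose ρf hρf using hρex
  have hM2 : 2 * (2 * r - 1) + 2 ≤ M := by omega
  set L : Fm → W × {R : Finset ((Fin (l + 1) × Fin n) × Option (ZMod q × ZMod q)) //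
      R.card ≤ M} → W × {R : Finset ((Fin (l + 1) × Fin n) × Option (ZMod q × ZMod q)) //
      R.card ≤ M} → Prop := fun f A B =>
    Stp N T M μ ν (ρf f) (A.1, A.2.1) (B.1, B.2.1) with hL
  -- same value if the same roles are known
  have hsame : ∀ (a : W) (x : Fin l × ZMod q → Bool) (D : Finset (Fin (l + 1) × Fin n)),
      supp (T a) ⊆ D → ∀ ρ ρ' : Fin (l + 1) → Fin n → Option (ZMod q × ZMod q),
      Good M (HX x) ρ → Good M (HX x) ρ' → (∀ c ∈ D, ρ c.1 c.2 = ρ' c.1 c.2) →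
      (Sym.Known (Sym.toNet N) (GR (k := k) μ ν ρ) a ↔
        Sym.Known (Sym.toNet N) (GR (k := k) μ ν ρ') a) := by
    intro a x D hD ρ ρ' hg hg' hag
    refine known_congr hμ (T := T a) (hTl a) (fun i r => good_count hg hg' i r)
      (fun i b => ?_) (fun i b hb => ?_)
    · have h1 := good_big hn' hg i b
      have h2 := hTc a i
      omega
    · exact hag (i, b) (hD (by simp [supp, hb]))
  have hgr : ∀ (ρ₁ ρ : Fin (l + 1) → Fin n → Option (ZMod q × ZMod q))
      (D : Finset (Fin (l + 1) × Fin n)),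
      (∀ z ∈ gr ρ₁ D, ρ z.1.1 z.1.2 = z.2) ↔ ∀ c ∈ D, ρ c.1 c.2 = ρ₁ c.1 c.2 := by
    intro ρ₁ ρ D
    constructor
    · intro h c hc
      exact h (c, ρ₁ c.1 c.2) (mem_image.2 ⟨c, hc, rfl⟩)
    · intro h z hz
      obtain ⟨c, hc, rfl⟩ := mem_image.1 hz
      exact h c hc
  have hLL : ∀ f A B, L f A B →
      ∃ i ≤ l, ∀ x, ¬ Cross i (fun j => x (pathOf l q f.1 j)) → J A x = J B x := by
    intro f A B hAB
    rcases hAB with ⟨h1, D, c, hD, hcD, hDc, hA, hB⟩ | ⟨D, hDA, hDB, hDc, hA, hB, hcl⟩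
    · simp only at h1 hD hA hB
      refine ⟨c.1, by have := c.1.2; omega, fun x hx => ?_⟩
      simp only [hJ]
      congr 1
      apply propext
      rw [hA, hB, ← h1]
      constructor
      · rintro ⟨ρ, hg, hc, hk⟩
        rw [hgr] at hc
        obtain ⟨ρ', hg', hc'⟩ := exists_good (m := l + 1) hn' (HX x) (gr (ρf f) (insert c D))
          (le_trans (gr_card _ _) (by rw [card_insert_of_notMem hcD]; exact hDc))
          (by
            intro z hz z' hz' hzz
            obtain ⟨c₁, _, rfl⟩ := mem_image.1 hz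
            obtain ⟨c₂, _, rfl⟩ := mem_image.1 hz'
            simp only at hzz
            rw [hzz])
          (by
            intro z hz e he
            obtain ⟨c₁, hc₁, rfl⟩ := mem_image.1 hz
            simp only at he ⊢
            rcases mem_insert.1 hc₁ with h2 | h2
            · subst h2
              have h3 : e ∈ HP (w f) c₁.1 := by
                by_contra hne
                exact (hρf f c₁.1 e).2 hne c₁.2 he
              have h4 : e = (w f c₁.1, w f (c₁.1 + 1)) := h3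
              rw [h4]
              exact (hcross f x c₁.1).1 hx
            · by_contra hne
              refine (hg c₁.1 e).2 hne c₁.2 ?_
              rw [hc c₁ h2]
              exact he)
        rw [hgr] at hc'
        refine ⟨ρ', hg', (hgr _ _ _).2 hc', ?_⟩
        refine (hsame A.1 x D hD ρ ρ' hg hg' ?_).1 hk
        intro c₁ hc₁
        rw [hc c₁ hc₁, hc' c₁ (mem_insert_of_mem hc₁)]
      · rintro ⟨ρ, hg, hc, hk⟩
        rw [hgr] at hc
        exact ⟨ρ, hg, (hgr _ _ _).2 (fun c₁ hc₁ => hc c₁ (mem_insert_of_mem hc₁)), hk⟩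
    · simp only at hDA hDB hA hB hcl
      refine ⟨0, by omega, fun x _ => ?_⟩
      simp only [hJ]
      congr 1
      apply propext
      rw [hA, hB]
      refine exists_congr fun ρ => and_congr_right fun hg => and_congr_right fun hc => ?_
      rw [hgr] at hc
      have hcl' : (Sym.toNet N).Closed (GR μ ν ρ) A.1 B.1 := by
        rw [toNet_closed]
        rcases hcl with h | ⟨e, he, hE, h⟩ | ⟨e, he, hE, h⟩
        · exact Or.inl h
        · exact Or.inr (Or.inl ⟨e, (mem_GR_congr hc hE).2 he, h⟩)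
        · exact Or.inr (Or.inr ⟨e, fun h' => he ((mem_GR_congr hc hE).1 h'), h⟩)
      exact ⟨fun h' => h'.trans _ _ _ (Relation.EqvGen.rel _ _ hcl'),
        fun h' => h'.trans _ _ _ ((Relation.EqvGen.rel _ _ hcl').symm _ _)⟩
  have hJsq : ∀ A x, J A x * J A x ≤ 1 := by
    intro A x
    simp only [hJ]
    split_ifs <;> norm_num
  have hJs : ∀ x, J (N.source, ⟨∅, by simp⟩) x = 1 := by
    intro x
    obtain ⟨ρ, h1, -⟩ := exists_good (m := l + 1) hn' (HX x) ∅ (by simp) (by simp) (by simp)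
    refine if_pos ⟨ρ, h1, by simp, ?_⟩
    exact Relation.EqvGen.refl _
  have hJt : ∀ x, J (N.sink, ⟨∅, by simp⟩) x = 0 := by
    intro x
    refine if_neg ?_
    rintro ⟨ρ, h1, -, h2⟩
    refine not_reach_cut hμ p q' hι x h1 ((hdec _ (GR_layered μ ν ρ)).1 ?_)
    unfold Sym.Known at h2
    rw [toNet_closed] at h2
    exact h2
  have hst : ∀ f, Relation.EqvGen (L f) (N.source, ⟨∅, by simp⟩) (N.sink, ⟨∅, by simp⟩) := by
    intro f
    have h1 : N.Connects (GR (k := k) μ ν (ρf f)) (GR μ ν (ρf f))ᶜ :=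
      (hdec _ (GR_layered μ ν (ρf f))).2
        (reach_path hμ (by omega) (by omega) p q' ι (w f) (hρf f))
    have h2 := walk (r := M) (s := 2 * r - 1) hμ.injective N T hTsupp hM2 (ρf f) h1
    have h3 : ∀ R : Finset ((Fin (l + 1) × Fin n) × Option (ZMod q × ZMod q)),
        ∃ R' : {R : Finset ((Fin (l + 1) × Fin n) × Option (ZMod q × ZMod q)) // R.card ≤ M},
          R.card ≤ M → R'.1 = R := by
      intro R
      by_cases h : R.card ≤ M
      · exact ⟨⟨R, h⟩, fun _ => rfl⟩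
      · exact ⟨⟨∅, by simp⟩, fun h' => absurd h' h⟩
    choose g hg using h3
    have h4 := eqv_map (r' := L f) (fun A : W ×
      Finset ((Fin (l + 1) × Fin n) × Option (ZMod q × ZMod q)) => (A.1, g A.2)) (by
        intro A B hAB
        have h5 : A.2.card ≤ M ∧ B.2.card ≤ M := by
          rcases hAB with ⟨h1, D, c, hD, hcD, hDc, hA, hB⟩ | ⟨D, hDA, hDB, hDc, hA, hB, hcl⟩
          · rw [hA, hB]
            refine ⟨le_trans (gr_card _ _) (by omega), le_trans (gr_card _ _) ?_⟩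
            rw [card_insert_of_notMem hcD]; exact hDc
          · rw [hA, hB]
            exact ⟨le_trans (gr_card _ _) hDc, le_trans (gr_card _ _) hDc⟩
        simp only [hL]
        rw [hg A.2 h5.1, hg B.2 h5.2]
        exact hAB) h2
    have h6 : ∀ ρ : Fin (l + 1) → Fin n → Option (ZMod q × ZMod q),
        gr ρ (supp (fun _ : Fin (l + 1) => (∅ : Finset (Fin n)))) = ∅ := by
      intro ρ
      simp [gr, supp]
    have h7 : g ∅ = ⟨∅, by simp⟩ := Subtype.ext (hg ∅ (by simp))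
    simp only [hTs, hTt, h6, h7] at h4
    exact h4
  have hdis : ∀ f f' : Fm, f ≠ f' → ∀ S S' : Finset (Fin l),
      S.map (pathOf l q f.1) = S'.map (pathOf l q f'.1) → S.card + 2 ≤ d := by
    intro f f' hne S S' h
    have := family (m := d - 1) hlq f f' hne S S' h
    omega
  have hcore := core hd hl (fun f : Fm => pathOf l q f.1) hdis J hJsq L hLL hJs hJt hst
  have hcardF : Fintype.card Fm = q ^ (d - 1) := by
    rw [← Nat.card_eq_fintype_card]; exact card_family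
  rw [hcardF] at hcore
  refine le_trans hcore ?_
  have h8 : Fintype.card (W × {R : Finset ((Fin (l + 1) × Fin n) ×
      Option (ZMod q × ZMod q)) // R.card ≤ M}) ≤
      Fintype.card W * (((l + 1) * n) * (q ^ 2 + 1) + 1) ^ M := by
    rw [Fintype.card_prod]
    refine Nat.mul_le_mul_left _ (le_trans (card_small _ _) (le_of_eq ?_))
    rw [Fintype.card_prod, Fintype.card_prod, Fintype.card_option, hcardZ, Fintype.card_fin,
      Fintype.card_fin]
  have h9 : ((Fintype.card (W × {R : Finset ((Fin (l + 1) × Fin n) ×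
      Option (ZMod q × ZMod q)) // R.card ≤ M}) : ℕ) : ℝ) ≤
      ((Fintype.card W * (((l + 1) * n) * (q ^ 2 + 1) + 1) ^ M : ℕ) : ℝ) := Nat.cast_le.2 h8
  gcongr

theorem lower_main {k n d : ℕ} (hd : 128 ≤ d) (hn : 2 ^ (40 * d) ≤ n) {Λ : Finset ℕ}
    (hΛ : ∀ c ∈ Λ, 0 < c ∧ c < k) (hL : 2 ^ (d + 2) ≤ Λ.card) (p q' : Fin n) {W : Type}
    [Fintype W] (N : SwitchingNetwork (Vtx k n × Vtx k n) W) (hN : InvariantInside N Λ)
    (hdec : N.DecidesOn (Layered k n) (start k p) (goal k q')) :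
    n ^ (d / 128) ≤ Fintype.card W := by
  by_contra hc
  push Not at hc
  obtain ⟨q, hq, hdq, h1, h2, h3⟩ := exists_prime hd hn
  have : Fact q.Prime := ⟨hq⟩
  have hr : 1 ≤ d / 128 := (Nat.one_le_div_iff (by norm_num)).2 hd
  have hidx : ∀ i : Fin (2 ^ d + 1), 2 * (i : ℕ) < Λ.card := by
    intro i
    have h4 := i.2
    have h5 : 2 ^ (d + 2) = 4 * 2 ^ d := by rw [pow_add]; ring
    have h6 : 1 ≤ 2 ^ d := Nat.one_le_two_pow
    omega
  set μ : Fin (2 ^ d + 1) → ℕ := fun i => Λ.orderEmbOfFin rfl ⟨2 * (i : ℕ), hidx i⟩ with hμ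
  have hmem : ∀ i, μ i ∈ Λ := fun i => Finset.orderEmbOfFin_mem _ _ _
  have hsp : Spaced k μ := by
    refine ⟨fun i => (hΛ _ (hmem i)).1, fun i => (hΛ _ (hmem i)).2, fun i j hij => ?_⟩
    have h4 : 2 * (i : ℕ) + 1 < Λ.card := by
      have h5 := hidx j
      have h6 : (i : ℕ) < j := hij
      omega
    have h7 : μ i < Λ.orderEmbOfFin rfl ⟨2 * (i : ℕ) + 1, h4⟩ :=
      (Λ.orderEmbOfFin rfl).strictMono (Fin.mk_lt_mk.2 (by omega))
    have h8 : Λ.orderEmbOfFin rfl ⟨2 * (i : ℕ) + 1, h4⟩ < μ j :=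
      (Λ.orderEmbOfFin rfl).strictMono (Fin.mk_lt_mk.2 (by
        have h6 : (i : ℕ) < j := hij
        omega))
    omega
  have h4 := core_bound (d := d) (l := 2 ^ d) (q := q) (r := d / 128) (by omega) le_rfl hdq hr hsp
    hmem p q' N hN hdec hc h2 h1
  have h5 : (Fintype.card W * ((((2 ^ d + 1) * n) * (q ^ 2 + 1) + 1) ^ (4 * (d / 128)))) ^ 2 *
      (9 * 2 ^ d + 1) ^ d < q ^ (d - 1) := by
    refine lt_of_le_of_lt ?_ h3
    gcongr
  have h6 : (((Fintype.card W * ((((2 ^ d + 1) * n) * (q ^ 2 + 1) + 1) ^ (4 * (d / 128)))) ^ 2 *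
      (9 * 2 ^ d + 1) ^ d : ℕ) : ℝ) < ((q ^ (d - 1) : ℕ) : ℝ) := Nat.cast_lt.2 h5
  refine absurd h4 (not_le.2 ?_)
  refine lt_of_eq_of_lt ?_ h6
  push_cast
  ring

end Pool.Agent.Lib.Pe46137M
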