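import Pool.Agent.Lib.Pe46137L.Defs
import Pool.Agent.Lib.Pe46137.Sym.Lower

/-!
Networks for products of Boolean matrices that are invariant under the renamings inside the layers
of an arbitrary set of layers.
-/

namespace Pool.Agent.Lib.Pe46137M

open Finset Pool.Agent.Lib.Pe46137 Pool.Agent.Lib.Pe46137L

/-- the renaming maps every layer to itself, and moves only vertices of the layers in `Λ` -/
def InsideOn {k n : ℕ} (Λ : Finset ℕ) (π : Equiv.Perm (Vtx k n)) : Prop :=
  ∀ v, (π v).1 = v.1 ∧ ((v.1 : ℕ) ∉ Λ → π v = v)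

/-- the guarded network is invariant inside the layers in `Λ`: every renaming inside these layers
extends to an automorphism of the network -/
def GuardedInside {k n : ℕ} {W : Type*} (N : Sym.Network (Vtx k n) W) (Λ : Finset ℕ) : Prop :=
  ∀ π : Equiv.Perm (Vtx k n), InsideOn Λ π → ∃ ρ : Equiv.Perm W, N.Lifts π ρ

/-- the switching network is invariant inside the layers in `Λ`: every renaming inside these layers
extends to an automorphism of the network -/
def InvariantInside {k n : ℕ} {W : Type*} (N : SwitchingNetwork (Vtx k n × Vtx k n) W)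
    (Λ : Finset ℕ) : Prop :=
  ∀ π : Equiv.Perm (Vtx k n), InsideOn Λ π → ∃ ρ : Equiv.Perm W, N.Lifts π ρ

/-- the least number of states of a switching network that computes the entry `(p, q)` of the
product of `k` Boolean `n × n` matrices and is invariant inside the layers in `Λ` -/
noncomputable def cost (k n : ℕ) (Λ : Finset ℕ) (p q : Fin n) : ℕ :=
  sInf {m | ∃ (W : Type) (_ : Fintype W) (N : SwitchingNetwork (Vtx k n × Vtx k n) W),
    Fintype.card W = m ∧ InvariantInside N Λ ∧
      N.DecidesOn (Layered k n) (start k p) (goal k q)}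

theorem exists_tau {k n : ℕ} {Λ : Finset ℕ} {π : Equiv.Perm (Vtx k n)} (hπ : InsideOn Λ π) :
    ∃ τ : ℕ → Equiv.Perm (Fin n), (∀ v, π v = (v.1, τ v.1 v.2)) ∧ ∀ c ∉ Λ, τ c = 1 := by
  classical
  have hinj : ∀ c : Fin (k + 1), Function.Injective (fun j : Fin n => (π (c, j)).2) := by
    intro c j j' h
    have h1 : π (c, j) = π (c, j') := Prod.ext (by rw [(hπ _).1, (hπ _).1]) h
    exact congrArg Prod.snd (π.injective h1)
  refine ⟨fun c => if h : c < k + 1 ∧ c ∈ Λ then
    Equiv.ofBijective _ (Finite.injective_iff_bijective.1 (hinj ⟨c, h.1⟩)) else 1, ?_, ?_⟩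
  · intro v
    by_cases h : (v.1 : ℕ) ∈ Λ
    · have h1 : (v.1 : ℕ) < k + 1 ∧ (v.1 : ℕ) ∈ Λ := ⟨v.1.2, h⟩
      simp only [dif_pos h1]
      exact Prod.ext (hπ v).1 rfl
    · have h1 : ¬ ((v.1 : ℕ) < k + 1 ∧ (v.1 : ℕ) ∈ Λ) := fun h' => h h'.2
      simp only [dif_neg h1]
      exact (hπ v).2 h
  · intro c hc
    have h1 : ¬ (c < k + 1 ∧ c ∈ Λ) := fun h' => hc h'.2
    simp only [dif_neg h1]

open Classical in
/-- the renaming of the vertices of the layers `μ i` by the permutations `σ i` -/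
noncomputable def spr {k n m : ℕ} (μ : Fin m → ℕ) (σ : Fin m → Equiv.Perm (Fin n)) :
    Equiv.Perm (Vtx k n) where
  toFun v := (v.1, if h : ∃ i, μ i = v.1 then σ h.choose v.2 else v.2)
  invFun v := (v.1, if h : ∃ i, μ i = v.1 then (σ h.choose)⁻¹ v.2 else v.2)
  left_inv v := by
    refine Prod.ext rfl ?_
    by_cases h : ∃ i, μ i = v.1
    · simp [h]
    · simp only [h, dite_false]
  right_inv v := by
    refine Prod.ext rfl ?_
    by_cases h : ∃ i, μ i = v.1
    · simp [h]
    · simp only [h, dite_false]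

section

variable {k n m : ℕ} {μ : Fin m → ℕ}

theorem spr_in (hμ : Function.Injective μ) (σ : Fin m → Equiv.Perm (Fin n)) (v : Vtx k n)
    (i : Fin m) (h : (v.1 : ℕ) = μ i) : spr μ σ v = (v.1, σ i v.2) := by
  have h1 : ∃ i, μ i = v.1 := ⟨i, h.symm⟩
  have h2 : h1.choose = i := hμ (h1.choose_spec.trans h)
  change (v.1, if h : ∃ i, μ i = v.1 then σ h.choose v.2 else v.2) = _
  rw [dif_pos h1, h2]

theorem spr_out (σ : Fin m → Equiv.Perm (Fin n)) (v : Vtx k n) (h : ∀ i, (v.1 : ℕ) ≠ μ i) :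
    spr μ σ v = v := by
  have h1 : ¬ ∃ i, μ i = v.1 := fun ⟨i, hi⟩ => h i hi.symm
  change (v.1, if h : ∃ i, μ i = v.1 then σ h.choose v.2 else v.2) = _
  rw [dif_neg h1]

theorem spr_fst (σ : Fin m → Equiv.Perm (Fin n)) (v : Vtx k n) : (spr μ σ v).1 = v.1 := rfl

theorem spr_one : spr (k := k) μ (1 : Fin m → Equiv.Perm (Fin n)) = 1 := by
  ext1 v
  refine Prod.ext rfl ?_
  change (if h : ∃ i, μ i = v.1 then (1 : Fin m → Equiv.Perm (Fin n)) h.choose v.2 else v.2) = v.2
  split_ifs <;> rfl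

theorem spr_mul (σ τ : Fin m → Equiv.Perm (Fin n)) :
    spr (k := k) μ (σ * τ) = spr μ σ * spr μ τ := by
  ext1 v
  rw [Equiv.Perm.mul_apply]
  refine Prod.ext rfl ?_
  by_cases h : ∃ i, μ i = v.1
  · change (if h : ∃ i, μ i = v.1 then (σ * τ) h.choose v.2 else v.2) =
      (if h : ∃ i, μ i = v.1 then σ h.choose
        (if h : ∃ i, μ i = v.1 then τ h.choose v.2 else v.2) else
        (if h : ∃ i, μ i = v.1 then τ h.choose v.2 else v.2))
    rw [dif_pos h, dif_pos h, dif_pos h]
    rfl
  · change (if h : ∃ i, μ i = v.1 then (σ * τ) h.choose v.2 else v.2) =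
      (if h : ∃ i, μ i = v.1 then σ h.choose
        (if h : ∃ i, μ i = v.1 then τ h.choose v.2 else v.2) else
        (if h : ∃ i, μ i = v.1 then τ h.choose v.2 else v.2))
    rw [dif_neg h, dif_neg h, dif_neg h]

theorem spr_inv (σ : Fin m → Equiv.Perm (Fin n)) : spr (k := k) μ σ⁻¹ = (spr μ σ)⁻¹ := by
  rw [eq_inv_iff_mul_eq_one, ← spr_mul, inv_mul_cancel, spr_one]

theorem spr_inside {Λ : Finset ℕ} (hΛ : ∀ i, μ i ∈ Λ) (σ : Fin m → Equiv.Perm (Fin n)) :
    InsideOn Λ (spr (k := k) μ σ) := fun v =>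
  ⟨rfl, fun hv => spr_out σ v fun i hi => hv (by rw [hi]; exact hΛ i)⟩

end

/-- inner layers, no two of them consecutive, in increasing order -/
structure Spaced (k : ℕ) {m : ℕ} (μ : Fin m → ℕ) : Prop where
  pos : ∀ i, 0 < μ i
  lt : ∀ i, μ i < k
  gap : ∀ i j, i < j → μ i + 2 ≤ μ j

theorem Spaced.injective {k m : ℕ} {μ : Fin m → ℕ} (h : Spaced k μ) : Function.Injective μ := by
  intro i j hij
  rcases lt_trichotomy i j with h1 | h1 | h1
  · have := h.gap i j h1; omega
  · exact h1
  · have := h.gap j i h1; omega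

/-- the layer after a layer `μ i` is not of this form -/
theorem Spaced.succ_ne {k m : ℕ} {μ : Fin m → ℕ} (h : Spaced k μ) (i j : Fin m) :
    μ i + 1 ≠ μ j := by
  intro hij
  rcases lt_trichotomy i j with h1 | h1 | h1
  · have := h.gap i j h1; omega
  · subst h1; omega
  · have := h.gap j i h1; omega

section roles

variable {Z : Type} {k n m l : ℕ}

/-- the vertex of the named layers between `μ (j - 1)` and `μ j` with the name `z`: before the
first of these layers only `p` is used, after the last one only `q` -/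
def nd (m : ℕ) (p q : Fin n) (ι : Z → Fin n) (j : ℕ) (z : Z) : Fin n :=
  if j = 0 then p else if j = m then q else ι z

/-- the digraph given by the roles of the vertices of the layers `μ i`: a vertex of the layer `μ i`
with the role `some (u, v)` has one arc from the vertex named `u` of the layer before and one arc
to the vertex named `v` of the layer after it, a vertex with the role `none` is isolated; between
two layers none of which is a `μ i`, the arcs are those of the identity -/
def GR (μ : Fin m → ℕ) (ν : ℕ → Z → Fin n) (ρ : Fin m → Fin n → Option (Z × Z)) :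
    Set (Vtx k n × Vtx k n) :=
  {e | (e.2.1 : ℕ) = e.1.1 + 1 ∧
    ((∀ i, (e.1.1 : ℕ) ≠ μ i) → (∀ i, (e.2.1 : ℕ) ≠ μ i) → e.1.2 = e.2.2) ∧
    (∀ i, (e.2.1 : ℕ) = μ i → ∃ u v, ρ i e.2.2 = some (u, v) ∧ e.1.2 = ν i u) ∧
    ∀ i, (e.1.1 : ℕ) = μ i → ∃ u v, ρ i e.1.2 = some (u, v) ∧ e.2.2 = ν (i + 1) v}

theorem GR_layered (μ : Fin m → ℕ) (ν : ℕ → Z → Fin n)
    (ρ : Fin m → Fin n → Option (Z × Z)) : GR μ ν ρ ∈ Layered k n := fun _ h => h.1

/-- every role `some e` with `e ∈ H i` occurs exactly `M` times in the layer `μ i`, the other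
roles `some e` do not occur -/
def Good [DecidableEq Z] (M : ℕ) (H : Fin m → Set (Z × Z))
    (ρ : Fin m → Fin n → Option (Z × Z)) : Prop :=
  ∀ i e, (e ∈ H i → (univ.filter (fun b => ρ i b = some e)).card = M) ∧
    (e ∉ H i → ∀ b, ρ i b ≠ some e)

/-- the value of the cut `x` at the point `z` of the position `j`: `true` for `j = 0`, `false` for
`j > l` -/
def cutv (x : Fin l × Z → Bool) (j : ℕ) (z : Z) : Bool := ext (fun i => x (i, z)) j

/-- the arcs that do not leave the cut -/
def HX (x : Fin l × Z → Bool) (i : Fin m) : Set (Z × Z) :=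
  {e | ¬ (cutv x i e.1 = true ∧ cutv x (i + 1) e.2 = false)}

/-- the arcs of the path `w` -/
def HP (w : ℕ → Z) (i : Fin m) : Set (Z × Z) := {(w i, w (i + 1))}

/-- the roles of the vertices in `D` -/
def gr [DecidableEq Z] (ρ : Fin m → Fin n → Option (Z × Z)) (D : Finset (Fin m × Fin n)) :
    Finset ((Fin m × Fin n) × Option (Z × Z)) := D.image (fun c => (c, ρ c.1 c.2))

/-- the vertices of the layers `μ i` in the supports `T i` -/
def supp (T : Fin m → Finset (Fin n)) : Finset (Fin m × Fin n) :=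
  univ.filter (fun c => c.2 ∈ T c.1)

/-- the ends of the pair `e` in the layers `μ i` lie in `D` -/
def Ends (μ : Fin m → ℕ) (e : Vtx k n × Vtx k n) (D : Finset (Fin m × Fin n)) : Prop :=
  ∀ i, ((e.1.1 : ℕ) = μ i → (i, e.1.2) ∈ D) ∧ ((e.2.1 : ℕ) = μ i → (i, e.2.2) ∈ D)

end roles

end Pool.Agent.Lib.Pe46137M
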