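import Pool.Agent.Lib.Pe46137L.Gad

/-!
MODULE Seg (about 1.5 h). The substitution for a segment between two layers `b < c`. Generalises
`head_reach`, `tail_reach`, `head_layered` of Lib/Pe46137L/Gad.lean (PROVED; read that file, it also
has useful auxiliary lemmas in `GadAux`).

`seg_layered`: `pullG f G = {e₀ | f e₀ = Sum.inr true ∨ ∃ e ∈ G, f e₀ = Sum.inl e}` and `segMap … e₀` is
`Sum.inr false` unless `e₀` leads to the next layer.
`seg_reach`: in the digraph `pullG (segMap b c p q u v) G`, which is layered, the arcs are: below layer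
`b` only `((i, p), (i + 1, p))`; from layer `c` on only `((i, q), (i + 1, q))`; for `b ≤ i < c` the pair
`((i, x), (i + 1, y))` with `x = p` if `i = b`, `y = q` if `i + 1 = c`, exactly if the arc
`((i, x'), (i + 1, y'))` is in `G`, where `x' = u` if `i = b`, `x' = x` otherwise, `y' = v` if
`i + 1 = c`, `y' = y` otherwise. A walk from `(0, p)` to `(k, q)` visits the layers one after the other,
so it consists of the constant path to `(b, p)`, a walk from `(b, p)` to `(c, q)` and the constant path
to `(k, q)`; the middle part corresponds to a walk from `(b, u)` to `(c, v)` in `G` (same inner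
vertices), and conversely.
-/

namespace Pool.Agent.Lib.Pe46137M

open Pool.Agent.Lib.Pe46137 Pool.Agent.Lib.Pe46137L

open Classical in
/-- the substitution for the segment from the vertex `u` of layer `b` to the vertex `v` of
layer `c` -/
noncomputable def segMap {k n : ℕ} (b c : ℕ) (p q u v : Fin n) (e : Vtx k n × Vtx k n) :
    (Vtx k n × Vtx k n) ⊕ Bool :=
  if (e.2.1 : ℕ) = e.1.1 + 1 then
    if (e.1.1 : ℕ) < b then Sum.inr (decide (e.1.2 = p ∧ e.2.2 = p))
    else if c ≤ (e.1.1 : ℕ) then Sum.inr (decide (e.1.2 = q ∧ e.2.2 = q))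
    else if ((e.1.1 : ℕ) = b → e.1.2 = p) ∧ ((e.2.1 : ℕ) = c → e.2.2 = q) then
      Sum.inl ((e.1.1, if (e.1.1 : ℕ) = b then u else e.1.2),
        (e.2.1, if (e.2.1 : ℕ) = c then v else e.2.2))
    else Sum.inr false
  else Sum.inr false

private theorem mem_seg {k n b c : ℕ} (p q u v : Fin n) (G : Set (Vtx k n × Vtx k n))
    (x y : Vtx k n) : (x, y) ∈ pullG (segMap b c p q u v) G ↔ (y.1 : ℕ) = x.1 + 1 ∧
      (((x.1 : ℕ) < b ∧ x.2 = p ∧ y.2 = p) ∨
       (b ≤ (x.1 : ℕ) ∧ c ≤ (x.1 : ℕ) ∧ x.2 = q ∧ y.2 = q) ∨
       (b ≤ (x.1 : ℕ) ∧ (x.1 : ℕ) < c ∧ ((x.1 : ℕ) = b → x.2 = p) ∧ ((y.1 : ℕ) = c → y.2 = q) ∧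
        (((x.1, if (x.1 : ℕ) = b then u else x.2) : Vtx k n),
          ((y.1, if (y.1 : ℕ) = c then v else y.2) : Vtx k n)) ∈ G)) := by
  unfold pullG segMap
  simp only [Set.mem_ofPred_eq]
  by_cases h1 : (y.1 : ℕ) = x.1 + 1
  · rw [if_pos h1]
    by_cases h2 : (x.1 : ℕ) < b
    · rw [if_pos h2]
      have h3 : ¬ b ≤ (x.1 : ℕ) := by omega
      simp [h1, h2, h3]
    · rw [if_neg h2]
      have h3 : b ≤ (x.1 : ℕ) := by omega
      by_cases h4 : c ≤ (x.1 : ℕ)
      · rw [if_pos h4]
        have h5 : ¬ (x.1 : ℕ) < c := by omega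
        simp [h1, h2, h3, h4, h5]
      · rw [if_neg h4]
        have h5 : (x.1 : ℕ) < c := by omega
        by_cases h6 : ((x.1 : ℕ) = b → x.2 = p) ∧ ((y.1 : ℕ) = c → y.2 = q)
        · rw [if_pos h6]
          constructor
          · rintro (h7 | ⟨e, he, h7⟩)
            · exact absurd h7 (by simp)
            · rw [Sum.inl.injEq] at h7
              exact ⟨h1, Or.inr (Or.inr ⟨h3, h5, h6.1, h6.2, h7 ▸ he⟩)⟩
          · rintro ⟨_, h7 | h7 | h7⟩
            · exact absurd h7.1 h2
            · exact absurd h7.2.1 h4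
            · exact Or.inr ⟨_, h7.2.2.2.2, rfl⟩
        · rw [if_neg h6]
          constructor
          · rintro (h7 | ⟨e, he, h7⟩)
            · exact absurd h7 (by simp)
            · exact absurd h7 (by simp)
          · rintro ⟨_, h7 | h7 | h7⟩
            · exact absurd h7.1 h2
            · exact absurd h7.2.1 h4
            · exact absurd ⟨h7.2.2.1, h7.2.2.2.1⟩ h6
  · rw [if_neg h1]
    simp [h1]

theorem seg_layered {k n : ℕ} (b c : ℕ) (p q u v : Fin n) {G : Set (Vtx k n × Vtx k n)}
    (hG : G ∈ Layered k n) : pullG (segMap b c p q u v) G ∈ Layered k n := by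
  rintro ⟨x, y⟩ he
  exact ((mem_seg p q u v G x y).1 he).1

theorem seg_reach {k n b c : ℕ} (hbc : b < c) (hck : c ≤ k) (p q u v : Fin n)
    {G : Set (Vtx k n × Vtx k n)} (hG : G ∈ Layered k n) :
    Reachable (pullG (segMap b c p q u v) G) (start k p) (goal k q) ↔
      Reachable G ((⟨b, by omega⟩, u) : Vtx k n) (⟨c, by omega⟩, v) := by
  constructor
  · intro h
    have key : ∀ z : Vtx k n, Reachable (pullG (segMap b c p q u v) G) (start k p) z →
        (b < (z.1 : ℕ) → (z.1 : ℕ) < c → Reachable G ((⟨b, by omega⟩, u) : Vtx k n) z) ∧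
        (c ≤ (z.1 : ℕ) → Reachable G ((⟨b, by omega⟩, u) : Vtx k n) (⟨c, by omega⟩, v)) := by
      intro z hz
      induction hz with
      | refl =>
        refine ⟨fun h0 => ?_, fun h0 => ?_⟩
        · exact absurd h0 (by simp [start])
        · exact absurd h0 (by simp [start]; omega)
      | @tail x y _ hxy ih =>
        rw [mem_seg] at hxy
        obtain ⟨h1, h2⟩ := hxy
        rcases h2 with ⟨h2, -, -⟩ | ⟨h2, h3, -, -⟩ | ⟨h2, h3, -, -, h6⟩
        · exact ⟨fun h5 => absurd h5 (by omega), fun h5 => absurd h5 (by omega)⟩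
        · exact ⟨fun h5 h6 => absurd h6 (by omega), fun _ => ih.2 h3⟩
        · have hx : Reachable G ((⟨b, by omega⟩, u) : Vtx k n)
              ((x.1, if (x.1 : ℕ) = b then u else x.2) : Vtx k n) := by
            by_cases h7 : (x.1 : ℕ) = b
            · rw [if_pos h7]
              have h8 : ((⟨b, by omega⟩, u) : Vtx k n) = (x.1, u) :=
                Prod.ext (Fin.ext h7.symm) rfl
              rw [h8]
              exact Relation.ReflTransGen.refl
            · rw [if_neg h7]
              exact ih.1 (by omega) h3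
          have hy := hx.tail h6
          refine ⟨fun h7 h8 => ?_, fun h7 => ?_⟩
          · rw [if_neg (by omega : ¬ (y.1 : ℕ) = c)] at hy
            exact hy
          · have h9 : (y.1 : ℕ) = c := by omega
            rw [if_pos h9] at hy
            have h8 : ((⟨c, by omega⟩, v) : Vtx k n) = (y.1, v) :=
              Prod.ext (Fin.ext h9.symm) rfl
            rw [h8]
            exact hy
    exact (key _ h).2 (by simpa [goal] using hck)
  · intro h
    have hall : ∀ i : ℕ, ∀ hi : i ≤ b,
        Reachable (pullG (segMap b c p q u v) G) (start k p)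
          ((⟨i, by omega⟩, p) : Vtx k n) := by
      intro i
      induction i with
      | zero => exact fun _ => Relation.ReflTransGen.refl
      | succ i ih =>
        intro hi
        refine (ih (by omega)).tail ?_
        rw [mem_seg]
        exact ⟨rfl, Or.inl ⟨by simp only; omega, rfl, rfl⟩⟩
    have key : ∀ z : Vtx k n, Reachable G ((⟨b, by omega⟩, u) : Vtx k n) z →
        b ≤ (z.1 : ℕ) ∧ ((z.1 : ℕ) = b → z = ((⟨b, by omega⟩, u) : Vtx k n)) ∧
        (b < (z.1 : ℕ) → (z.1 : ℕ) < c →
          Reachable (pullG (segMap b c p q u v) G) (start k p) z) ∧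
        ((z.1 : ℕ) = c → z.2 = v →
          Reachable (pullG (segMap b c p q u v) G) (start k p) (⟨c, by omega⟩, q)) := by
      intro z hz
      induction hz with
      | refl =>
        exact ⟨le_rfl, fun _ => rfl, fun h0 => absurd h0 (lt_irrefl _),
          fun h0 => absurd h0 (by simp only; omega)⟩
      | @tail x y _ hxy ih =>
        have h1 : (y.1 : ℕ) = x.1 + 1 := hG _ hxy
        obtain ⟨i1, i2, i3, -⟩ := ih
        -- the source of the last arc
        have hx : (x.1 : ℕ) < c → Reachable (pullG (segMap b c p q u v) G) (start k p)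
            ((x.1, if (x.1 : ℕ) = b then p else x.2) : Vtx k n) := by
          intro hxc
          by_cases h7 : (x.1 : ℕ) = b
          · rw [if_pos h7]
            have h8 : ((x.1, p) : Vtx k n) = (⟨b, by omega⟩, p) :=
              Prod.ext (Fin.ext h7) rfl
            rw [h8]
            exact hall b le_rfl
          · rw [if_neg h7]
            exact i3 (by omega) hxc
        have hx2 : (if (x.1 : ℕ) = b then u else (if (x.1 : ℕ) = b then p else x.2)) = x.2 := by
          by_cases h7 : (x.1 : ℕ) = b
          · rw [if_pos h7, i2 h7]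
          · rw [if_neg h7, if_neg h7]
        refine ⟨by omega, fun h0 => absurd h0 (by omega), fun h2 h3 => ?_, fun h2 h3 => ?_⟩
        · refine (hx (by omega)).tail ?_
          rw [mem_seg]
          refine ⟨h1, Or.inr (Or.inr ⟨i1, by simp only; omega, fun h7 => ?_,
            fun h7 => absurd h7 (by omega), ?_⟩)⟩
          · simp only at h7 ⊢
            rw [if_pos h7]
          · simp only
            rw [hx2, if_neg (by omega : ¬ (y.1 : ℕ) = c)]
            exact hxy
        · refine (hx (by omega)).tail ?_
          rw [mem_seg]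
          refine ⟨by simp only; omega, Or.inr (Or.inr ⟨i1, by simp only; omega, fun h7 => ?_,
            fun _ => rfl, ?_⟩)⟩
          · simp only at h7 ⊢
            rw [if_pos h7]
          · simp only
            rw [hx2, if_true]
            have h8 : ((⟨c, by omega⟩, v) : Vtx k n) = y :=
              Prod.ext (Fin.ext h2.symm) h3.symm
            rw [h8]
            exact hxy
    have hc := (key _ h).2.2.2 rfl rfl
    have hend : ∀ i : ℕ, ∀ hi : c + i < k + 1,
        Reachable (pullG (segMap b c p q u v) G) (start k p)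
          ((⟨c + i, hi⟩, q) : Vtx k n) := by
      intro i
      induction i with
      | zero => exact fun _ => hc
      | succ i ih =>
        intro hi
        refine (ih (by omega)).tail ?_
        rw [mem_seg]
        exact ⟨rfl, Or.inr (Or.inl ⟨by simp only; omega, by simp only; omega, rfl, rfl⟩)⟩
    have h2 := hend (k - c) (by omega)
    have h3 : ((⟨c + (k - c), by omega⟩, q) : Vtx k n) = goal k q := by
      refine Prod.ext (Fin.ext ?_) rfl
      simp only [goal, Fin.val_last]
      omega
    rwa [h3] at h2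

end Pool.Agent.Lib.Pe46137M
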