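import Pool.Agent.Lib.Pe46137M.Defs
import Pool.Agent.Lib.Pe46137M.Seg
import Pool.Agent.Lib.Pe46137L.RecA
import Pool.Agent.Lib.Pe46137L.RecB
import Pool.Agent.Lib.Pe46137L.Upper

/-!
MODULE UpperM (about 2 h). A switching network made invariant inside the layers of a set. Imports are
black boxes. Close adaptation of Lib/Pe46137L/Upper.lean (PROVED: consecutive layers): the only
change is that ALL segments are substituted copies of `N₀`.

`j = Nat.clog 2 (l + 1)`, so `l + 1 ≤ 2 ^ j` (`Nat.le_pow_clog`), `X = Fin n`, `s0 = N₀.source`,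
`t0 = N₀.sink`; `s0 ≠ t0` since `N₀` decides the empty digraph (`0 < k`: `lam 0 = 0 < lam 1 ≤ lam (l + 1)
= k`), so `2 ≤ card W₀`. Position `i ≤ l + 1` is the layer `lam i`, positions beyond `l + 1` are copies of the
goal. Write `N₀ i u v := subst (segMap (lam i) (lam (i + 1)) p q u v) N₀`. Base contacts from the vertex
`u` of position `i` to the vertex `v` of position `i + 1`: for `i ≤ l` the wires, variables and negations of
`N₀ i u v`; for `i > l` only the wire `z = s0 ∧ z' = t0 ∧ u = v`.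
The network: states `StG W₀ (Fin n) j`, source `sttG _ s0 j`, sink `ennG _ t0 j`, wires
`RecL True s0 t0 Bw j 0 p q`, `pos e = RecL False s0 t0 (Bp e) j 0 p q`,
`neg e = RecL False s0 t0 (Bn e) j 0 p q`. If `N₀.Avoids Set.univ` then no `Bn e` has a contact, so
`N.Avoids Set.univ` by `RecL_empty`. Cardinality: `card_StG_le`.
DECIDES. On a layered digraph `G` the closed contacts are `RecL True s0 t0 B j 0 p q` with
`B i u v z z' ↔ Bw i u v z z' ∨ (∃ e ∈ G, Bp e i u v z z') ∨ ∃ e ∈ Gᶜ, Bn e i u v z z'`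
(`RecL_union` with index type `{e // e ∈ G} ⊕ {e // e ∉ G}`), and `EqvGen (B i u v) s0 t0 ↔ R i u v` with
`R i u v = Reachable G (lam i, u) (lam (i + 1), v)` for `i ≤ l` (`subst_closed`, `seg_layered`,
`seg_reach`) and `R i u v = (u = v)` for `i > l` (`s0 ≠ t0`). By `RecL_connected` and `chain_iff` acceptance
means: there is `w` with `w 0 = p`, `w (2 ^ j) = q`, `R i (w i) (w (i + 1))` for all `i < 2 ^ j`; then
`w (l + 1) = q`, and the segments give a walk from `(0, p)` to `(k, q)`. Conversely a walk from `(0, p)` to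
`(k, q)` in a layered digraph visits the layers one after the other; let `w i` be its vertex in the layer
`lam i` for `i ≤ l + 1` and `w i = q` for `i > l + 1`.
INVARIANT. Let `InsideOn Λ π`; `exists_tau` gives `τ` with `π v = (v.1, τ v.1 v.2)`, `τ c = 1` for `c ∉ Λ`.
Let `σ i = τ (lam i)` for `i ≤ l` and `σ i = 1` for `i > l`; `ρ = actL W₀ σ j 0` (`actL_stt`, `actL_enn`). By
`RecL_act` it is enough that `Bw i (σ i u) (σ (i + 1) v) z z' ↔ Bw i u v z z'` (for `i ≤ l`:
`segMap … e₀ = Sum.inr b` does not depend on `u`, `v`; for `i > l`: `σ i = σ (i + 1) = 1`) and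
`Bp (π e.1, π e.2) i (σ i u) (σ (i + 1) v) z z' ↔ Bp e i u v z z'`, same for `Bn`: for `i ≤ l` this follows
from `segMap b c p q (σ i u) (σ (i + 1) v) e₀ = Sum.inl (π e.1, π e.2) ↔
segMap b c p q u v e₀ = Sum.inl e` (`b = lam i`, `c = lam (i + 1)`): the layers strictly between `b` and
`c` are not in `Λ` (`hΛ`, `lam` is strictly increasing on `0, …, l + 1`), so `τ` is `1` there, `τ b = σ i`,
and `τ c = σ (i + 1)` (for `i = l`: `c = k ∉ Λ`, `τ k = 1 = σ (l + 1)`). Finally `σ 0 p = p` (`0 ∉ Λ`) and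
`σ (0 + 2 ^ j) q = q` (`2 ^ j > l`).
-/

namespace Pool.Agent.Lib.Pe46137M

open Pool.Agent.Lib.Pe46137 Pool.Agent.Lib.Pe46137L

namespace UpperMAux

open Sym Equiv UpperAux

variable {k n : ℕ} {W₀ : Type}

section net

variable (lam : ℕ → ℕ) (l : ℕ) (p q : Fin n) (N₀ : SwitchingNetwork (Vtx k n × Vtx k n) W₀)

/-- base contacts that are permanently closed -/
def Cw (m : ℕ) (u v : Fin n) (z z' : W₀) : Prop :=
  (m ≤ l ∧ (subst (segMap (lam m) (lam (m + 1)) p q u v) N₀).wire z z') ∨
  (l < m ∧ z = N₀.source ∧ z' = N₀.sink ∧ u = v)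

/-- base contacts labelled by variables -/
def Cp (e : Vtx k n × Vtx k n) (m : ℕ) (u v : Fin n) (z z' : W₀) : Prop :=
  m ≤ l ∧ (subst (segMap (lam m) (lam (m + 1)) p q u v) N₀).pos e z z'

/-- base contacts labelled by negated variables -/
def Cn (e : Vtx k n × Vtx k n) (m : ℕ) (u v : Fin n) (z z' : W₀) : Prop :=
  m ≤ l ∧ (subst (segMap (lam m) (lam (m + 1)) p q u v) N₀).neg e z z'

/-- the network -/
def netM (j : ℕ) : SwitchingNetwork (Vtx k n × Vtx k n) (StG W₀ (Fin n) j) where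
  source := sttG _ N₀.source j
  sink := ennG _ N₀.sink j
  wire := RecL True N₀.source N₀.sink (Cw lam l p q N₀) j 0 p q
  pos e := RecL False N₀.source N₀.sink (Cp lam l p q N₀ e) j 0 p q
  neg e := RecL False N₀.source N₀.sink (Cn lam l p q N₀ e) j 0 p q

/-- all closed base contacts -/
def CG (G : Set (Vtx k n × Vtx k n)) (m : ℕ) (u v : Fin n) (z z' : W₀) : Prop :=
  Cw lam l p q N₀ m u v z z' ∨ ∃ i : {e // e ∈ G} ⊕ {e // e ∈ Gᶜ},
    Sum.elim (fun e : {e // e ∈ G} => Cp lam l p q N₀ e.1)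
      (fun e : {e // e ∈ Gᶜ} => Cn lam l p q N₀ e.1) i m u v z z'

/-- the relation of the positions -/
def RR (k : ℕ) (G : Set (Vtx k n × Vtx k n)) (m : ℕ) (u v : Fin n) : Prop :=
  (m ≤ l → Reachable G (vx k (lam m) u) (vx k (lam (m + 1)) v)) ∧ (l < m → u = v)

variable {lam l}

theorem lam_mono (hlt : ∀ i ≤ l, lam i < lam (i + 1)) {i j : ℕ} (hij : i ≤ j) (hj : j ≤ l + 1) :
    lam i ≤ lam j := by
  induction j, hij using Nat.le_induction with
  | base => exact le_rfl
  | succ j hij ih => exact (ih (by omega)).trans (hlt j (by omega)).le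

theorem source_ne (hk : 0 < k) (h₀ : N₀.DecidesOn (Layered k n) (start k p) (goal k q)) :
    N₀.source ≠ N₀.sink := by
  intro hs
  have h1 := (h₀ ∅ (fun e he => absurd he (Set.notMem_empty e))).1 (by
    unfold SwitchingNetwork.Connects
    rw [hs]
    exact Relation.EqvGen.refl _)
  obtain ⟨_, w, _, _, h3⟩ := walk (fun e he => absurd he (Set.notMem_empty e)) h1
  have h4 : ((start k p).1 : ℕ) < (goal k q).1 := hk
  exact absurd (h3 _ le_rfl h4) (Set.notMem_empty _)

theorem CG_connected (hk : lam (l + 1) = k) (hlt : ∀ i ≤ l, lam i < lam (i + 1))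
    (h₀ : N₀.DecidesOn (Layered k n) (start k p) (goal k q))
    {G : Set (Vtx k n × Vtx k n)} (hG : G ∈ Layered k n) (m : ℕ) (u v : Fin n) :
    Relation.EqvGen (CG lam l p q N₀ G m u v) N₀.source N₀.sink ↔ RR lam l k G m u v := by
  have hk0 : 0 < k := by
    have := hlt l le_rfl
    omega
  rcases Nat.lt_or_ge l m with hm | hm
  · have hne := source_ne p q N₀ hk0 h₀
    have h : ∀ z z', CG lam l p q N₀ G m u v z z' ↔ (z = N₀.source ∧ z' = N₀.sink ∧ u = v) := by
      intro z z'
      constructor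
      · rintro ((⟨h1, _⟩ | ⟨_, h⟩) | ⟨i | i, h1, _⟩)
        · omega
        · exact h
        · omega
        · omega
      · intro h
        exact Or.inl (Or.inr ⟨hm, h⟩)
    constructor
    · intro h1
      have key : ∀ z z', Relation.EqvGen (CG lam l p q N₀ G m u v) z z' → z = z' ∨ u = v := by
        intro z z' hzz
        induction hzz with
        | rel x y hxy => exact Or.inr ((h x y).1 hxy).2.2
        | refl x => exact Or.inl rfl
        | symm x y _ ih => exact ih.imp Eq.symm id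
        | trans x y z _ _ ih1 ih2 =>
          rcases ih1 with h1 | h1
          · rcases ih2 with h2 | h2
            · exact Or.inl (h1.trans h2)
            · exact Or.inr h2
          · exact Or.inr h1
      rcases key _ _ h1 with h2 | h2
      · exact absurd h2 hne
      · exact ⟨fun h3 => absurd h3 (by omega), fun _ => h2⟩
    · intro h1
      exact Relation.EqvGen.rel _ _ ((h _ _).2 ⟨rfl, rfl, h1.2 hm⟩)
  · have h : CG lam l p q N₀ G m u v =
        N₀.Closed (pullG (segMap (lam m) (lam (m + 1)) p q u v) G)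
          (pullG (segMap (lam m) (lam (m + 1)) p q u v) G)ᶜ := by
      rw [← subst_closed]
      funext z z'
      apply propext
      constructor
      · rintro ((⟨_, h⟩ | ⟨h1, _⟩) | ⟨i | i, _, hi⟩)
        · exact Or.inl h
        · omega
        · exact Or.inr (Or.inl ⟨i.1, i.2, hi⟩)
        · exact Or.inr (Or.inr ⟨i.1, i.2, hi⟩)
      · rintro (h | ⟨e, he, h⟩ | ⟨e, he, h⟩)
        · exact Or.inl (Or.inl ⟨hm, h⟩)
        · exact Or.inr ⟨Sum.inl ⟨e, he⟩, hm, h⟩
        · exact Or.inr ⟨Sum.inr ⟨e, he⟩, hm, h⟩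
    rw [h]
    have h2 := h₀ _ (seg_layered (lam m) (lam (m + 1)) p q u v hG)
    have hck : lam (m + 1) ≤ k := hk ▸ lam_mono hlt (by omega) le_rfl
    unfold SwitchingNetwork.Connects at h2
    rw [h2, seg_reach (hlt m hm) hck p q u v hG]
    have h3 : vx k (lam m) u = ((⟨lam m, by have := hlt m hm; omega⟩, u) : Vtx k n) :=
      vx_eq (by have := hlt m hm; omega) u
    have h4 : vx k (lam (m + 1)) v = ((⟨lam (m + 1), by omega⟩, v) : Vtx k n) := vx_eq hck v
    unfold RR
    rw [h3, h4]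
    exact ⟨fun h5 => ⟨fun _ => h5, fun h6 => absurd h6 (by omega)⟩, fun h5 => h5.1 hm⟩

theorem chain_reachM (h0 : lam 0 = 0) (hk : lam (l + 1) = k)
    (hlt : ∀ i ≤ l, lam i < lam (i + 1)) {G : Set (Vtx k n × Vtx k n)}
    (hG : G ∈ Layered k n) {j : ℕ} (hj : l + 1 ≤ 2 ^ j) :
    Chain (RR lam l k G) j 0 p q ↔ Reachable G (start k p) (goal k q) := by
  have es : ∀ u : Fin n, vx k 0 u = start k u := by
    intro u
    rw [vx_eq (Nat.zero_le _)]
    rfl
  have eg : ∀ u : Fin n, vx k k u = goal k u := by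
    intro u
    rw [vx_eq le_rfl]
    rfl
  rw [chain_iff]
  constructor
  · rintro ⟨w, hw1, hw2, hw3⟩
    have h1 : ∀ m, m ≤ l + 1 → Reachable G (start k p) (vx k (lam m) (w m)) := by
      intro m
      induction m with
      | zero =>
        intro _
        rw [h0, hw1, es]
        exact Relation.ReflTransGen.refl
      | succ m ih =>
        intro hm
        exact (ih (by omega)).trans ((hw3 m (by omega) (by omega)).1 (by omega))
    have h2 : ∀ m, l + 1 ≤ m → m ≤ 2 ^ j → w m = w (l + 1) := by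
      intro m hm
      induction m, hm using Nat.le_induction with
      | base => intro _; rfl
      | succ m hm ih =>
        intro hm2
        rw [← ih (by omega)]
        exact ((hw3 m (by omega) (by omega)).2 (by omega)).symm
    have h3 := h2 (2 ^ j) hj le_rfl
    rw [Nat.zero_add] at hw2
    rw [hw2] at h3
    have h4 := h1 (l + 1) le_rfl
    rw [hk, ← h3, eg] at h4
    exact h4
  · intro h
    obtain ⟨-, w', hw1, hw2, hw3⟩ := walk hG h
    have hs : ((start k p).1 : ℕ) = 0 := rfl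
    have hg : ((goal k q).1 : ℕ) = k := rfl
    rw [hs, hg] at hw3
    rw [hs] at hw1
    rw [hg] at hw2
    have hw1' : w' 0 = p := hw1
    have hw2' : w' k = q := hw2
    refine ⟨fun m => if m ≤ l + 1 then w' (lam m) else q, ?_, ?_, ?_⟩
    · show (if 0 ≤ l + 1 then w' (lam 0) else q) = p
      rw [if_pos (by omega), h0, hw1']
    · show (if 0 + 2 ^ j ≤ l + 1 then w' (lam (0 + 2 ^ j)) else q) = q
      split_ifs with h1
      · have h2 : 0 + 2 ^ j = l + 1 := by omega
        rw [h2, hk, hw2']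
      · rfl
    · intro m _ hm
      refine ⟨fun h1 => ?_, fun h1 => ?_⟩
      · show Reachable G (vx k (lam m) (if m ≤ l + 1 then w' (lam m) else q))
          (vx k (lam (m + 1)) (if m + 1 ≤ l + 1 then w' (lam (m + 1)) else q))
        rw [if_pos (by omega), if_pos (by omega)]
        refine of_walk (G := G) w' (hlt m h1).le fun c h2 h3 => hw3 c (Nat.zero_le _) ?_
        have h4 : lam (m + 1) ≤ lam (l + 1) := lam_mono hlt (by omega) le_rfl
        omega
      · show (if m ≤ l + 1 then w' (lam m) else q) =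
          (if m + 1 ≤ l + 1 then w' (lam (m + 1)) else q)
        rw [if_neg (by omega : ¬ m + 1 ≤ l + 1)]
        split_ifs with h2
        · have h3 : m = l + 1 := by omega
          rw [h3, hk, hw2']
        · rfl

theorem net_decidesM (h0 : lam 0 = 0) (hk : lam (l + 1) = k)
    (hlt : ∀ i ≤ l, lam i < lam (i + 1))
    (h₀ : N₀.DecidesOn (Layered k n) (start k p) (goal k q))
    {j : ℕ} (hj : l + 1 ≤ 2 ^ j) :
    (netM lam l p q N₀ j).DecidesOn (Layered k n) (start k p) (goal k q) := by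
  intro G hG
  rw [← chain_reachM p q h0 hk hlt hG hj,
    ← RecL_connected N₀.source N₀.sink (CG_connected p q N₀ hk hlt h₀ hG) j 0 p q]
  have h : (netM lam l p q N₀ j).Closed G Gᶜ =
      RecL True N₀.source N₀.sink (CG lam l p q N₀ G) j 0 p q := by
    funext z z'
    apply propext
    rw [RecL_union N₀.source N₀.sink (B := CG lam l p q N₀ G) (B1 := Cw lam l p q N₀)
      (B2 := Sum.elim (fun e : {e // e ∈ G} => Cp lam l p q N₀ e.1)
      (fun e : {e // e ∈ Gᶜ} => Cn lam l p q N₀ e.1)) (fun m u v z z' => Iff.rfl)]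
    constructor
    · rintro (h | ⟨e, he, h⟩ | ⟨e, he, h⟩)
      · exact Or.inl h
      · exact Or.inr ⟨Sum.inl ⟨e, he⟩, h⟩
      · exact Or.inr ⟨Sum.inr ⟨e, he⟩, h⟩
    · rintro (h | ⟨e | e, h⟩)
      · exact Or.inl h
      · exact Or.inr (Or.inl ⟨e.1, e.2, h⟩)
      · exact Or.inr (Or.inr ⟨e.1, e.2, h⟩)
  unfold SwitchingNetwork.Connects
  rw [h]
  rfl

theorem seg_act {b c : ℕ} {π : Perm (Vtx k n)} {τ : ℕ → Perm (Fin n)}
    (h1 : ∀ v, π v = (v.1, τ v.1 v.2)) (h2 : ∀ i, b < i → i < c → τ i = 1) (u v : Fin n)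
    (e : Vtx k n × Vtx k n) :
    segMap b c p q (τ b u) (τ c v) e = Sum.map (Prod.map π π) id (segMap b c p q u v e) := by
  unfold segMap
  by_cases c1 : (e.2.1 : ℕ) = e.1.1 + 1
  · rw [if_pos c1, if_pos c1]
    by_cases c2 : (e.1.1 : ℕ) < b
    · rw [if_pos c2, if_pos c2]
      rfl
    · rw [if_neg c2, if_neg c2]
      by_cases c3 : c ≤ (e.1.1 : ℕ)
      · rw [if_pos c3, if_pos c3]
        rfl
      · rw [if_neg c3, if_neg c3]
        by_cases c4 : ((e.1.1 : ℕ) = b → e.1.2 = p) ∧ ((e.2.1 : ℕ) = c → e.2.2 = q)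
        · rw [if_pos c4, if_pos c4]
          show Sum.inl _ = Sum.inl (π _, π _)
          rw [h1, h1]
          have e1 : (if (e.1.1 : ℕ) = b then τ b u else e.1.2) =
              τ e.1.1 (if (e.1.1 : ℕ) = b then u else e.1.2) := by
            split_ifs with h3
            · rw [h3]
            · rw [h2 e.1.1 (by omega) (by omega)]
              rfl
          have e2 : (if (e.2.1 : ℕ) = c then τ c v else e.2.2) =
              τ e.2.1 (if (e.2.1 : ℕ) = c then v else e.2.2) := by
            split_ifs with h3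
            · rw [h3]
            · rw [h2 e.2.1 (by omega) (by omega)]
              rfl
          rw [e1, e2]
        · rw [if_neg c4, if_neg c4]
          rfl
  · rw [if_neg c1, if_neg c1]
    rfl

theorem net_invariantM (h0 : lam 0 = 0) (hk : lam (l + 1) = k)
    (hlt : ∀ i ≤ l, lam i < lam (i + 1)) (Λ : Finset ℕ)
    (hΛ : ∀ c, c ∈ Λ ↔ ∃ i, 1 ≤ i ∧ i ≤ l ∧ lam i = c) {j : ℕ} (hj : l + 1 ≤ 2 ^ j) :
    InvariantInside (netM lam l p q N₀ j) Λ := by
  intro π hπ
  obtain ⟨τ, hτ, hτ1⟩ := exists_tau hπ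
  have hsm : ∀ i j, i < j → j ≤ l + 1 → lam i < lam j := by
    intro i j h1 h2
    exact (hlt i (by omega)).trans_le (lam_mono hlt (by omega) h2)
  have h0Λ : 0 ∉ Λ := by
    intro h
    obtain ⟨i, h1, h2, h3⟩ := (hΛ 0).1 h
    have := hsm 0 i (by omega) (by omega)
    omega
  have hkΛ : k ∉ Λ := by
    intro h
    obtain ⟨i, h1, h2, h3⟩ := (hΛ k).1 h
    have := hsm i (l + 1) (by omega) le_rfl
    omega
  have hgap : ∀ m, m ≤ l → ∀ i, lam m < i → i < lam (m + 1) → τ i = 1 := by
    intro m hm i h1 h2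
    refine hτ1 i fun h => ?_
    obtain ⟨i', h3, h4, h5⟩ := (hΛ i).1 h
    rcases Nat.lt_or_ge m i' with h6 | h6
    · have := lam_mono hlt (show m + 1 ≤ i' by omega) (by omega)
      omega
    · have := lam_mono hlt h6 (by omega)
      omega
  set σ : ℕ → Perm (Fin n) := fun m => if m ≤ l then τ (lam m) else 1 with hσ
  have hσ1 : ∀ m, m ≤ l → σ m = τ (lam m) := fun m hm => if_pos hm
  have hσ2 : ∀ m, m ≤ l → σ (m + 1) = τ (lam (m + 1)) := by
    intro m hm
    rcases Nat.lt_or_ge m l with h1 | h1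
    · exact hσ1 (m + 1) (by omega)
    · have h2 : m = l := by omega
      subst h2
      rw [hk, hτ1 k hkΛ]
      exact if_neg (by omega)
  have hσ3 : ∀ m, l < m → σ m = 1 := fun m hm => if_neg (by omega)
  have hinj : Function.Injective (Prod.map π π) := π.injective.prodMap π.injective
  have hseg : ∀ m, m ≤ l → ∀ u v e, segMap (lam m) (lam (m + 1)) p q (σ m u) (σ (m + 1) v) e =
      Sum.map (Prod.map π π) id (segMap (lam m) (lam (m + 1)) p q u v e) := by
    intro m hm u v e
    rw [hσ1 m hm, hσ2 m hm]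
    exact seg_act p q hτ (hgap m hm) u v e
  have hp : σ 0 p = p := by
    rw [hσ1 0 (by omega), h0, hτ1 0 h0Λ]
    rfl
  have hq : σ (0 + 2 ^ j) q = q := by
    rw [hσ3 (0 + 2 ^ j) (by omega)]
    rfl
  have hCw : ∀ m u v z z', Cw lam l p q N₀ m (σ m u) (σ (m + 1) v) z z' ↔
      Cw lam l p q N₀ m u v z z' := by
    intro m u v z z'
    unfold Cw
    refine or_congr (and_congr_right fun h => ?_) (and_congr_right fun h => ?_)
    · exact subst_wire (hseg m h u v) N₀ z z'
    · rw [hσ3 m h, hσ3 (m + 1) (by omega)]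
      rfl
  have hCp : ∀ e m u v z z', Cp lam l p q N₀ (π e.1, π e.2) m (σ m u) (σ (m + 1) v) z z' ↔
      Cp lam l p q N₀ e m u v z z' := by
    intro e m u v z z'
    unfold Cp
    refine and_congr_right fun h => ?_
    exact subst_pos hinj (hseg m h u v) N₀ e z z'
  have hCn : ∀ e m u v z z', Cn lam l p q N₀ (π e.1, π e.2) m (σ m u) (σ (m + 1) v) z z' ↔
      Cn lam l p q N₀ e m u v z z' := by
    intro e m u v z z'
    unfold Cn
    refine and_congr_right fun h => ?_
    exact subst_neg hinj (hseg m h u v) N₀ e z z'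
  refine ⟨actL W₀ σ j 0, actL_stt σ _ j 0, actL_enn σ _ j 0, fun v w => ?_, fun e v w => ?_,
    fun e v w => ?_⟩
  · have := RecL_act True N₀.source N₀.sink σ hCw j 0 p q v w
    rw [hp, hq] at this
    exact this
  · have := RecL_act False N₀.source N₀.sink σ (hCp e) j 0 p q v w
    rw [hp, hq] at this
    exact this
  · have := RecL_act False N₀.source N₀.sink σ (hCn e) j 0 p q v w
    rw [hp, hq] at this
    exact this

theorem net_avoidsM (hN : N₀.Avoids Set.univ) (j : ℕ) :
    (netM lam l p q N₀ j).Avoids Set.univ := by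
  intro e _ v w
  refine RecL_empty N₀.source N₀.sink (B := Cn lam l p q N₀ e) ?_ j 0 p q v w
  rintro m u v z z' ⟨_, e₀, _, h⟩
  exact hN e₀ (Set.mem_univ _) z z' h

end net

end UpperMAux

theorem upperM {k n l : ℕ} (lam : ℕ → ℕ) (h0 : lam 0 = 0) (hk : lam (l + 1) = k)
    (hlt : ∀ i ≤ l, lam i < lam (i + 1)) (Λ : Finset ℕ)
    (hΛ : ∀ c, c ∈ Λ ↔ ∃ i, 1 ≤ i ∧ i ≤ l ∧ lam i = c) (p q : Fin n) {W₀ : Type} [Fintype W₀]
    (N₀ : SwitchingNetwork (Vtx k n × Vtx k n) W₀)
    (h₀ : N₀.DecidesOn (Layered k n) (start k p) (goal k q)) :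
    ∃ (W : Type) (_ : Fintype W) (N : SwitchingNetwork (Vtx k n × Vtx k n) W),
      InvariantInside N Λ ∧ N.DecidesOn (Layered k n) (start k p) (goal k q) ∧
      (N₀.Avoids Set.univ → N.Avoids Set.univ) ∧
      Fintype.card W ≤ Fintype.card W₀ * (2 * n + 1) ^ Nat.clog 2 (l + 1) := by
  have hk0 : 0 < k := by
    have := hlt l le_rfl
    omega
  have hj : l + 1 ≤ 2 ^ Nat.clog 2 (l + 1) := Nat.le_pow_clog (by norm_num) _
  refine ⟨Sym.StG W₀ (Fin n) (Nat.clog 2 (l + 1)), inferInstance,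
    UpperMAux.netM lam l p q N₀ (Nat.clog 2 (l + 1)),
    UpperMAux.net_invariantM p q N₀ h0 hk hlt Λ hΛ hj,
    UpperMAux.net_decidesM p q N₀ h0 hk hlt h₀ hj,
    fun hN => UpperMAux.net_avoidsM p q N₀ hN _, ?_⟩
  have h2 := UpperAux.two_le_card hk0 N₀ h₀
  have := Sym.card_StG_le (W₀ := W₀) (X := Fin n) h2 (Nat.clog 2 (l + 1))
  rwa [Fintype.card_fin] at this

end Pool.Agent.Lib.Pe46137M
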