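import Pool.Agent.Lib.Pe46137M.Apply
import Pool.Agent.Lib.Pe46137M.UpperM
import Pool.Agent.Lib.Pe46137L.Cost
import Pool.Agent.Lib.Pe46137L.Det

/-!
The price of symmetry inside an arbitrary set of layers.
-/

namespace Pool.Agent.Lib.Pe46137M

open Pool.Agent.Lib.Pe46137 Pool.Agent.Lib.Pe46137L

theorem InsideOn.mono {k n : ℕ} {Λ Λ' : Finset ℕ} {π : Equiv.Perm (Vtx k n)}
    (h : InsideOn Λ' π) (hΛ : Λ' ⊆ Λ) : InsideOn Λ π :=
  fun v => ⟨(h v).1, fun hv => (h v).2 fun h' => hv (hΛ h')⟩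

theorem InvariantInside.mono {k n : ℕ} {Λ Λ' : Finset ℕ} {W : Type*}
    {N : SwitchingNetwork (Vtx k n × Vtx k n) W} (h : InvariantInside N Λ) (hΛ : Λ' ⊆ Λ) :
    InvariantInside N Λ' := fun π hπ => h π (hπ.mono hΛ)

theorem inside_of_insideOn {k n : ℕ} {Λ : Finset ℕ} (hΛ : ∀ c ∈ Λ, 0 < c ∧ c < k)
    {π : Equiv.Perm (Vtx k n)} (h : InsideOn Λ π) : Inside 0 (k - 1) π :=
  fun v => ⟨(h v).1, fun hv => (h v).2 fun h' => by
    have := hΛ _ h'
    omega⟩

theorem insideOn_of_inside {k n a l : ℕ} {Λ : Finset ℕ} (hΛ : Finset.Ioc a (a + l) ⊆ Λ)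
    {π : Equiv.Perm (Vtx k n)} (h : Inside a l π) : InsideOn Λ π :=
  fun v => ⟨(h v).1, fun hv => (h v).2 (by
    by_contra hc
    push Not at hc
    exact hv (hΛ (Finset.mem_Ioc.2 ⟨hc.1, hc.2⟩)))⟩

/-- all renamings inside the layers in `Λ` extend: the invariant network for all inner layers -/
theorem invariant_of_layer {k n : ℕ} {Λ : Finset ℕ} (hΛ : ∀ c ∈ Λ, 0 < c ∧ c < k) {W : Type*}
    {N : SwitchingNetwork (Vtx k n × Vtx k n) W} (h : LayerInvariant N 0 (k - 1)) :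
    InvariantInside N Λ := fun π hπ => h π (inside_of_insideOn hΛ hπ)

theorem toNet_guarded {k n : ℕ} {Λ : Finset ℕ} {W : Type*}
    {N : SwitchingNetwork (Vtx k n × Vtx k n) W} (h : InvariantInside N Λ) :
    GuardedInside (Sym.toNet N) Λ := fun π hπ =>
  let ⟨ρ, hρ⟩ := h π hπ
  ⟨ρ, Sym.toNet_lifts hρ⟩

theorem lower_run {k n a l : ℕ} {Λ : Finset ℕ} (hkl : a + l < k)
    (hΛ : Finset.Ioc a (a + l) ⊆ Λ) (p q : Fin n) {W : Type} [Fintype W]
    (N : Sym.Network (Vtx k n) W) (hN : GuardedInside N Λ)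
    (hdec : ∀ G ∈ Layered k n, (N.Accepts G ↔ Reachable G (start k p) (goal k q)))
    (hn : 20 * Nat.clog 2 (l + 1) ^ 2 * (Nat.log 2 n + 1) ≤ n) :
    n ^ Nat.clog 2 (l + 1) ≤ Fintype.card W :=
  lower_clog hkl p q N (fun π hπ => hN π (insideOn_of_inside hΛ hπ)) hdec hn

/-- the empty digraph is rejected -/
theorem not_reach_empty {k n : ℕ} (hk : 0 < k) (p q : Fin n) :
    ¬ Reachable (∅ : Set (Vtx k n × Vtx k n)) (start k p) (goal k q) := by
  intro h
  have h1 : ∀ x y : Vtx k n, Reachable (∅ : Set (Vtx k n × Vtx k n)) x y → x = y := by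
    intro x y hxy
    induction hxy with
    | refl => rfl
    | tail _ h _ => exact absurd h (Set.notMem_empty _)
  have h2 := congrArg (fun v : Vtx k n => (v.1 : ℕ)) (h1 _ _ h)
  simp only [start, goal, Fin.val_zero, Fin.val_last] at h2
  omega

theorem two_le_card {k n : ℕ} (hk : 0 < k) (p q : Fin n) {W : Type} [Fintype W]
    (N : SwitchingNetwork (Vtx k n × Vtx k n) W)
    (hdec : N.DecidesOn (Layered k n) (start k p) (goal k q)) : 2 ≤ Fintype.card W := by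
  have h1 : N.source ≠ N.sink := by
    intro h
    refine not_reach_empty hk p q ((hdec ∅ (fun e he => absurd he (Set.notMem_empty _))).1 ?_)
    unfold SwitchingNetwork.Connects
    rw [h]
    exact Relation.EqvGen.refl _
  exact Fintype.one_lt_card_iff.2 ⟨_, _, h1⟩

theorem lower_set {k n : ℕ} (hk : 0 < k) {Λ : Finset ℕ} (hΛ : ∀ c ∈ Λ, 0 < c ∧ c < k)
    (p q : Fin n) {W : Type} [Fintype W] (N : SwitchingNetwork (Vtx k n × Vtx k n) W)
    (hN : InvariantInside N Λ)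
    (hdec : N.DecidesOn (Layered k n) (start k p) (goal k q)) :
    (n : ℝ) ^ (min (Real.logb 2 Λ.card) (Real.logb 2 n) / 30000) ≤ Fintype.card W := by
  refine final_form (L := Λ.card) (by have := p.2; omega) (two_le_card hk p q N hdec) ?_ ?_
  · intro hL hn
    obtain ⟨c, hc⟩ := Finset.card_pos.1 hL
    have h1 := hΛ c hc
    have h2 := lower_run (k := k) (a := c - 1) (l := 1) (Λ := Λ) (by omega) (by
      intro c' hc'
      rw [Finset.mem_Ioc] at hc'
      have : c' = c := by omega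
      rw [this]; exact hc) p q (Sym.toNet N) (toNet_guarded hN)
      (fun G hG => (Sym.toNet_accepts N G).trans (hdec G hG)) (by
        have e1 : Nat.clog 2 (1 + 1) = 1 := by decide
        rw [e1]
        simpa using hn)
    have e1 : Nat.clog 2 (1 + 1) = 1 := by decide
    rw [e1, pow_one] at h2
    exact h2
  · intro d hd hn hL
    exact lower_main hd hn hΛ hL p q N hN hdec

/-- the layers in `Λ` in increasing order, preceded by `0` and followed by `k` -/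
noncomputable def lamOf (k : ℕ) (Λ : Finset ℕ) (i : ℕ) : ℕ :=
  if i = 0 then 0 else if h : i - 1 < Λ.card then Λ.orderEmbOfFin rfl ⟨i - 1, h⟩ else k

theorem upper_set {k n : ℕ} (hk : 0 < k) {Λ : Finset ℕ} (hΛ : ∀ c ∈ Λ, 0 < c ∧ c < k)
    (p q : Fin n) {W₀ : Type} [Fintype W₀]
    (N₀ : SwitchingNetwork (Vtx k n × Vtx k n) W₀)
    (h₀ : N₀.DecidesOn (Layered k n) (start k p) (goal k q)) :
    ∃ (W : Type) (_ : Fintype W) (N : SwitchingNetwork (Vtx k n × Vtx k n) W),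
      InvariantInside N Λ ∧ N.DecidesOn (Layered k n) (start k p) (goal k q) ∧
      (N₀.Avoids Set.univ → N.Avoids Set.univ) ∧
      Fintype.card W ≤ Fintype.card W₀ * (2 * n + 1) ^ Nat.clog 2 (Λ.card + 1) := by
  have e0 : lamOf k Λ 0 = 0 := if_pos rfl
  have e1 : ∀ i (h : i < Λ.card), lamOf k Λ (i + 1) = Λ.orderEmbOfFin rfl ⟨i, h⟩ := by
    intro i h
    unfold lamOf
    rw [if_neg (by omega), dif_pos (by omega : i + 1 - 1 < Λ.card)]
    rfl
  have e2 : lamOf k Λ (Λ.card + 1) = k := by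
    unfold lamOf
    rw [if_neg (by omega), dif_neg (by omega)]
  have hin : ∀ i (h : i < Λ.card), 0 < Λ.orderEmbOfFin rfl ⟨i, h⟩ ∧
      Λ.orderEmbOfFin rfl ⟨i, h⟩ < k := fun i h => hΛ _ (Finset.orderEmbOfFin_mem _ _ _)
  refine upperM (l := Λ.card) (lamOf k Λ) e0 e2 ?_ Λ ?_ p q N₀ h₀
  · intro i hi
    rcases Nat.eq_zero_or_pos i with h | h
    · subst h
      rw [e0]
      rcases Nat.eq_zero_or_pos Λ.card with h' | h'
      · have : lamOf k Λ (0 + 1) = k := by rw [← h']; exact e2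
        omega
      · rw [e1 0 h']; exact (hin 0 h').1
    · obtain ⟨i, rfl⟩ : ∃ i', i = i' + 1 := ⟨i - 1, by omega⟩
      rw [e1 i (by omega)]
      rcases Nat.lt_or_ge (i + 1) Λ.card with h' | h'
      · rw [e1 (i + 1) h']
        exact (Λ.orderEmbOfFin rfl).strictMono (Fin.mk_lt_mk.2 (by omega))
      · have : i + 1 = Λ.card := by omega
        rw [this, e2]
        exact (hin i (by omega)).2
  · intro c
    constructor
    · intro hc
      have h1 : c ∈ Set.range (Λ.orderEmbOfFin rfl) := by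
        rw [Finset.range_orderEmbOfFin]; exact hc
      obtain ⟨i, hi⟩ := h1
      refine ⟨i + 1, by omega, by have := i.2; omega, ?_⟩
      rw [e1 i i.2]
      exact hi
    · rintro ⟨i, h1, h2, rfl⟩
      obtain ⟨i, rfl⟩ : ∃ i', i = i' + 1 := ⟨i - 1, by omega⟩
      rw [e1 i (by omega)]
      exact Finset.orderEmbOfFin_mem _ _ _

theorem cost_le {k n : ℕ} {Λ : Finset ℕ} {p q : Fin n} {W : Type} [iW : Fintype W]
    (N : SwitchingNetwork (Vtx k n × Vtx k n) W) (h1 : InvariantInside N Λ)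
    (h2 : N.DecidesOn (Layered k n) (start k p) (goal k q)) :
    cost k n Λ p q ≤ Fintype.card W :=
  Nat.sInf_le ⟨W, iW, N, rfl, h1, h2⟩

theorem cost_spec {k n : ℕ} (hk : 0 < k) {Λ : Finset ℕ} (hΛ : ∀ c ∈ Λ, 0 < c ∧ c < k)
    (p q : Fin n) :
    ∃ (W : Type) (_ : Fintype W) (N : SwitchingNetwork (Vtx k n × Vtx k n) W),
      Fintype.card W = cost k n Λ p q ∧ InvariantInside N Λ ∧
      N.DecidesOn (Layered k n) (start k p) (goal k q) := by
  have hne : {m | ∃ (W : Type) (_ : Fintype W) (N : SwitchingNetwork (Vtx k n × Vtx k n) W),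
      Fintype.card W = m ∧ InvariantInside N Λ ∧
      N.DecidesOn (Layered k n) (start k p) (goal k q)}.Nonempty := by
    obtain ⟨W, iW, N, h1, h2, _, _⟩ := full hk p q
    exact ⟨_, W, iW, N, rfl, invariant_of_layer hΛ h1, h2⟩
  exact Nat.sInf_mem hne

theorem cost_empty_le {k n : ℕ} (hk : 0 < k) {Λ : Finset ℕ} (hΛ : ∀ c ∈ Λ, 0 < c ∧ c < k)
    (p q : Fin n) : cost k n ∅ p q ≤ cost k n Λ p q := by
  obtain ⟨W, iW, N, h1, h2, h3⟩ := cost_spec hk hΛ p q
  rw [← h1]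
  exact cost_le N (h2.mono (Finset.empty_subset _)) h3

theorem cost_upper {k n : ℕ} (hk : 0 < k) {Λ : Finset ℕ} (hΛ : ∀ c ∈ Λ, 0 < c ∧ c < k)
    (p q : Fin n) :
    cost k n Λ p q ≤ cost k n ∅ p q * (2 * n + 1) ^ Nat.clog 2 (Λ.card + 1) := by
  obtain ⟨W₀, iW, N₀, hc, _, h0⟩ := cost_spec hk (Λ := ∅) (by simp) p q
  obtain ⟨W, iW', N, h1, h2, _, h4⟩ := upper_set hk hΛ p q N₀ h0
  rw [← hc]
  exact le_trans (cost_le N h1 h2) h4

theorem poly_iff (k : ℕ → ℕ) (hk : ∀ m, 0 < k m) (Λ : ℕ → Finset ℕ)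
    (hΛ : ∀ m, ∀ c ∈ Λ m, 0 < c ∧ c < k m) (p q : ∀ m : ℕ, Fin (m + 2)) :
    (∃ c : ℕ, ∀ m, cost (k m) (m + 2) (Λ m) (p m) (q m) ≤ (m + 2) ^ c) ↔
      (∃ c : ℕ, ∀ m, cost (k m) (m + 2) ∅ (p m) (q m) ≤ (m + 2) ^ c) ∧
        ∃ b : ℕ, ∀ m, (Λ m).card ≤ b := by
  constructor
  · rintro ⟨c, hc⟩
    refine ⟨⟨c, fun m => le_trans (cost_empty_le (hk m) (hΛ m) _ _) (hc m)⟩, ?_⟩
    set d : ℕ := 128 * (c + 1) with hd
    have hlarge : ∀ m, 2 ^ (40 * d) ≤ m → (Λ m).card < 2 ^ (d + 2) := by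
      intro m hm
      by_contra hlt
      push Not at hlt
      obtain ⟨W, iW, N, h1, h2, h3⟩ := cost_spec (hk m) (hΛ m) (p m) (q m)
      have h4 := lower_main (d := d) (by omega) (by omega) (hΛ m) hlt (p m) (q m) N h2 h3
      rw [h1] at h4
      have h5 := le_trans h4 (hc m)
      have h6 : d / 128 = c + 1 := by omega
      rw [h6] at h5
      exact absurd h5 (not_le.2 (Nat.pow_lt_pow_right (by omega) (by omega)))
    refine ⟨2 ^ (d + 2) + ∑ m ∈ Finset.range (2 ^ (40 * d)), (Λ m).card, fun m => ?_⟩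
    rcases Nat.lt_or_ge m (2 ^ (40 * d)) with h | h
    · exact le_trans (Finset.single_le_sum (f := fun m => (Λ m).card) (fun i _ => Nat.zero_le _)
        (Finset.mem_range.2 h)) (Nat.le_add_left _ _)
    · exact le_trans (hlarge m h).le (Nat.le_add_right _ _)
  · rintro ⟨⟨c, hc⟩, b, hb⟩
    refine ⟨c + 3 * Nat.clog 2 (b + 1), fun m => ?_⟩
    have h1 : 2 * (m + 2) + 1 ≤ (m + 2) ^ 3 := by
      have e1 : (m + 2) ^ 3 = m ^ 3 + 6 * m ^ 2 + 12 * m + 8 := by ring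
      rw [e1]
      have e2 := Nat.zero_le (m ^ 3 + 6 * m ^ 2)
      omega
    have h2 : Nat.clog 2 ((Λ m).card + 1) ≤ Nat.clog 2 (b + 1) :=
      Nat.clog_mono_right 2 (by have := hb m; omega)
    calc cost (k m) (m + 2) (Λ m) (p m) (q m)
        ≤ cost (k m) (m + 2) ∅ (p m) (q m) *
          (2 * (m + 2) + 1) ^ Nat.clog 2 ((Λ m).card + 1) := cost_upper (hk m) (hΛ m) _ _
      _ ≤ (m + 2) ^ c * ((m + 2) ^ 3) ^ Nat.clog 2 ((Λ m).card + 1) :=
        Nat.mul_le_mul (hc m) (Nat.pow_le_pow_left h1 _)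
      _ ≤ (m + 2) ^ c * ((m + 2) ^ 3) ^ Nat.clog 2 (b + 1) :=
        Nat.mul_le_mul_left _ (Nat.pow_le_pow_right (by positivity) h2)
      _ = (m + 2) ^ (c + 3 * Nat.clog 2 (b + 1)) := by rw [← pow_mul, ← pow_add]

end Pool.Agent.Lib.Pe46137M
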