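import Pool.Agent.Lib.Pe46137M.Final

/-!
# Symmetric layers kill negations

A sequence of `k` Boolean `n × n` matrices is a layered digraph, and an entry of their product says
whether a vertex of the last layer is reachable from a vertex of the first one; this problem is
complete for NLOGSPACE, and undirected switching networks of polynomial size are non-uniform
logarithmic space. Let the network be symmetric inside `l` of the inner layers: every renaming of
the vertices inside these layers extends to an automorphism. In the other layers it is arbitrary,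
and negated variables are allowed everywhere. Such a network has `n ^ Ω(min (log l) (log n))`
states, wherever the `l` layers are, and the price of this symmetry over arbitrary networks is at
most `(2 n + 1) ^ ⌈log₂ (l + 1)⌉`. If `l` consecutive layers are symmetric the exact power is
`⌈log₂ (l + 1)⌉`, also for contacts with arbitrary decreasing guards.
-/

namespace Pool.Agent.Lib.Pe46137M.LayerSymmetry

open Pool.Agent.Lib.Pe46137 Pool.Agent.Lib.Pe46137L Pool.Agent.Lib.Pe46137M

theorem result :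
    (∀ (k n : ℕ) (Λ : Finset ℕ) (p q : Fin n), 0 < k → (∀ c ∈ Λ, 0 < c ∧ c < k) →
      (∀ (W : Type) [Fintype W] (N : SwitchingNetwork (Vtx k n × Vtx k n) W),
        InvariantInside N Λ → N.DecidesOn (Layered k n) (start k p) (goal k q) →
        (n : ℝ) ^ (min (Real.logb 2 Λ.card) (Real.logb 2 n) / 30000) ≤ Fintype.card W) ∧
      (∀ (W₀ : Type) [Fintype W₀] (N₀ : SwitchingNetwork (Vtx k n × Vtx k n) W₀),
        N₀.DecidesOn (Layered k n) (start k p) (goal k q) →
        ∃ (W : Type) (_ : Fintype W) (N : SwitchingNetwork (Vtx k n × Vtx k n) W),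
          InvariantInside N Λ ∧ N.DecidesOn (Layered k n) (start k p) (goal k q) ∧
          (N₀.Avoids Set.univ → N.Avoids Set.univ) ∧
          Fintype.card W ≤ Fintype.card W₀ * (2 * n + 1) ^ Nat.clog 2 (Λ.card + 1)) ∧
      (∀ a l : ℕ, Finset.Ioc a (a + l) ⊆ Λ →
        20 * Nat.clog 2 (l + 1) ^ 2 * (Nat.log 2 n + 1) ≤ n →
        ∀ (W : Type) [Fintype W] (N : Sym.Network (Vtx k n) W), GuardedInside N Λ →
        (∀ G ∈ Layered k n, (N.Accepts G ↔ Reachable G (start k p) (goal k q))) →
        n ^ Nat.clog 2 (l + 1) ≤ Fintype.card W) ∧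
      ∃ N : SwitchingNetwork (Vtx k n × Vtx k n) (Vtx k n), InvariantInside N Λ ∧
        N.DecidesOn {G | G ∈ Layered k n ∧ ∀ u v w, (u, v) ∈ G → (u, w) ∈ G → v = w}
          (start k p) (goal k q) ∧ N.Avoids Set.univ) ∧
    ∀ (k : ℕ → ℕ) (Λ : ℕ → Finset ℕ) (p q : ∀ m : ℕ, Fin (m + 2)), (∀ m, 0 < k m) →
      (∀ m, ∀ c ∈ Λ m, 0 < c ∧ c < k m) →
      ((∃ c : ℕ, ∀ m, cost (k m) (m + 2) (Λ m) (p m) (q m) ≤ (m + 2) ^ c) ↔
        (∃ c : ℕ, ∀ m, cost (k m) (m + 2) ∅ (p m) (q m) ≤ (m + 2) ^ c) ∧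
          ∃ b : ℕ, ∀ m, (Λ m).card ≤ b) := by
  refine ⟨fun k n Λ p q hk hΛ => ⟨fun W _ N hN hdec => lower_set hk hΛ p q N hN hdec,
    fun W₀ _ N₀ h₀ => upper_set hk hΛ p q N₀ h₀, fun a l hal hn W _ N hN hdec => ?_, ?_⟩,
    fun k Λ p q hk hΛ => poly_iff k hk Λ hΛ p q⟩
  · rcases Nat.eq_zero_or_pos l with h | h
    · subst h
      rw [zero_add, Nat.clog_one_right, pow_zero]
      exact Fintype.card_pos_iff.2 ⟨N.source⟩
    · refine lower_run ?_ hal p q N hN hdec hn
      exact (hΛ _ (hal (Finset.mem_Ioc.2 ⟨by omega, le_rfl⟩))).2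
  · obtain ⟨N, h1, h2, h3⟩ := det hk p q
    exact ⟨N, invariant_of_layer hΛ h1, h2, h3⟩

end Pool.Agent.Lib.Pe46137M.LayerSymmetry
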