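import Pool.Agent.Lib.Pe46137L.Supp

/-!
MODULE SuppP (about 45 min). Supports of a subgroup of small index of a product of symmetric
groups: the product form of `layer_supports` (Lib/Pe46137L/Supp.lean, PROVED; copy that proof).

The first steps are the same: `SuppAux.exists_T` gives `T i` with `card < q`, all 3-cycles outside
`T i` in `H`, and `(T i).image (σ i) = T i` for `σ ∈ H` (`hTim`). New last step: for every `i` and every
`c : {x // x ∈ powersetCard (T i).card (univ : Finset Ω)}` choose a permutation `π i c` of `Ω` with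
`(T i).image (π i c) = c` (`exists_perm_image`). For a family `c` (a function of `i`) let
`S c i = π i (c i)`. The map `c ↦ F (S c)` is injective: `F (S c) = F (S c')` gives
`(S c')⁻¹ * S c ∈ H`, so `(T i).image (S c i) = (T i).image (S c' i)`, i.e. `c i = c' i`. So
`∏ i, (card Ω).choose (T i).card = card (∀ i, {x // x ∈ powersetCard (T i).card univ}) ≤ card W`
(`Fintype.card_pi`, `card_powersetCard`).
-/

namespace Pool.Agent.Lib.Pe46137M

open Finset Equiv Pool.Agent.Lib.Pe46137.Sym Pool.Agent.Lib.Pe46137L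

open scoped Nat in
theorem layer_supports_prod {ι Ω W : Type} [Fintype ι] [DecidableEq ι] [Fintype Ω]
    [DecidableEq Ω] [Fintype W] (H : Subgroup (ι → Perm Ω)) (F : (ι → Perm Ω) → W)
    (hF : ∀ σ σ', F σ = F σ' → σ'⁻¹ * σ ∈ H) {d q y : ℕ}
    (hW : Fintype.card W < Fintype.card Ω ^ (d + 1))
    (hq : Fintype.card Ω ^ (d + 1) ≤ (Fintype.card Ω).choose q)
    (hy : Fintype.card Ω ^ (d + 1) ≤ y !) (h1 : y * (q + 2) ≤ Fintype.card Ω)
    (h2 : Fintype.card Ω * ((q + 1) * (q + 2)) ≤
      (Fintype.card Ω - q) * (Fintype.card Ω - (q + 1)))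
    (h3 : 2 * q + 3 ≤ Fintype.card Ω) :
    ∃ T : ι → Finset Ω, (∀ i, (T i).card < q) ∧
      (∀ i, ∀ a b c, a ∉ T i → b ∉ T i → c ∉ T i → a ≠ b → b ≠ c → a ≠ c →
        Pi.mulSingle i (cyc a b c) ∈ H) ∧
      ∏ i, (Fintype.card Ω).choose (T i).card ≤ Fintype.card W := by
  classical
  have hstep : ∀ i, ∃ T : Finset Ω, T.card < q ∧
      (∀ a b c, a ∉ T → b ∉ T → c ∉ T → a ≠ b → b ≠ c → a ≠ c →
        cyc a b c ∈ SuppAux.KK H i) ∧ ∀ σ ∈ H, ∀ z, z ∈ T → σ i z ∈ T := by
    intro i
    apply SuppAux.exists_T H i h3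
    apply support_theorem (SuppAux.KK H i) (fun π => F (Pi.mulSingle i π)) ?_
      (lt_of_lt_of_le hW hq) (lt_of_lt_of_le hW hy) h1 h2
    intro π π' hh
    have h4 := hF _ _ hh
    rw [SuppAux.mem_KK, Pi.mulSingle_mul, Pi.mulSingle_inv]
    exact h4
  choose T hTc hTtri hTst using hstep
  refine ⟨T, hTc, hTtri, ?_⟩
  have hTim : ∀ σ ∈ H, ∀ i, (T i).image (σ i) = T i := by
    intro σ hσ i
    apply eq_of_subset_of_card_le
    · intro z hz
      obtain ⟨w, hw, rfl⟩ := mem_image.1 hz
      exact hTst i σ hσ w hw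
    · rw [card_image_of_injective _ (σ i).injective]
  have hpi : ∀ (i : ι) (c : {x // x ∈ powersetCard (T i).card (univ : Finset Ω)}),
      ∃ π : Perm Ω, (T i).image π = c.1 := by
    intro i c
    apply exists_perm_image
    exact (mem_powersetCard.1 c.2).2.symm
  choose π hπ using hpi
  have hinj : Function.Injective
      (fun c : ((i : ι) → {x // x ∈ powersetCard (T i).card (univ : Finset Ω)}) =>
        F (fun i => π i (c i))) := by
    intro c c' hcc
    have h4 := hF _ _ hcc
    funext i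
    apply Subtype.ext
    rw [← hπ i (c i), ← hπ i (c' i)]
    have h5 := hTim _ h4 i
    have h6 : ((T i).image (((fun i => π i (c' i))⁻¹ * (fun i => π i (c i)) : ι → Perm Ω) i)).image
        (π i (c' i)) = (T i).image (π i (c' i)) := by rw [h5]
    rw [image_image] at h6
    rw [← h6]
    congr 1
    funext z
    rw [Function.comp_apply, Pi.mul_apply, Pi.inv_apply, Perm.mul_apply, app_inv]
  have hcard := Fintype.card_le_of_injective _ hinj
  rw [Fintype.card_pi] at hcard
  refine le_trans (le_of_eq ?_) hcard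
  refine prod_congr rfl fun i _ => ?_
  rw [Fintype.card_coe, card_powersetCard, card_univ]

end Pool.Agent.Lib.Pe46137M
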